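import Mathlib
import Pool.Agent.Helper5.GKK.Herm
import Pool.Agent.Helper85.SVG.Det

/-!
Real matrices as complex matrices: principal minors, almost principal minors and Schur complements
are real; recursion for Schur complements; Schur complement parts.
-/

namespace Pool.Agent.Helper21.GK

open Matrix Finset Pool.Agent.Helper5.GKK Pool.Agent.Helper85.SVG
open scoped ComplexOrder

variable {n : ℕ}

/-- a real matrix seen as a complex matrix -/
noncomputable def cx (M : Matrix (Fin n) (Fin n) ℝ) : Matrix (Fin n) (Fin n) ℂ :=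
  M.map (fun x : ℝ => (x : ℂ))

@[simp] theorem cx_apply (M : Matrix (Fin n) (Fin n) ℝ) (i j : Fin n) : cx M i j = (M i j : ℂ) := rfl

theorem det_cx (M : Matrix (Fin n) (Fin n) ℝ) {κ : Type*} [Fintype κ] [DecidableEq κ]
    (g h : κ → Fin n) : ((cx M).submatrix g h).det = (((M.submatrix g h).det : ℝ) : ℂ) := by
  have h1 : (cx M).submatrix g h = Complex.ofRealHom.mapMatrix (M.submatrix g h) := by
    ext x y; rfl
  rw [h1, ← RingHom.map_det]
  rfl

/-- real principal minors -/
noncomputable def pmr (M : Matrix (Fin n) (Fin n) ℝ) (S : Finset (Fin n)) : ℝ :=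
  (M.submatrix (Subtype.val : S → Fin n) Subtype.val).det

/-- real almost principal minors -/
noncomputable def ppr (M : Matrix (Fin n) (Fin n) ℝ) (K : Finset (Fin n)) (i j : Fin n) : ℝ :=
  (M.submatrix (Sum.elim (Subtype.val : K → Fin n) (fun _ : Unit => i))
    (Sum.elim (Subtype.val : K → Fin n) (fun _ : Unit => j))).det

/-- real Schur complements -/
noncomputable def scr (M : Matrix (Fin n) (Fin n) ℝ) (K : Finset (Fin n)) (i j : Fin n) : ℝ :=
  ppr M K i j / pmr M K

theorem pm_cx (M : Matrix (Fin n) (Fin n) ℝ) (S : Finset (Fin n)) : pm (cx M) S = (pmr M S : ℂ) :=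
  det_cx M _ _

theorem pp_cx (M : Matrix (Fin n) (Fin n) ℝ) (K : Finset (Fin n)) (i j : Fin n) :
    pp (cx M) K i j = (ppr M K i j : ℂ) := det_cx M _ _

theorem pm_cx_pos {M : Matrix (Fin n) (Fin n) ℝ} {S : Finset (Fin n)} :
    0 < pm (cx M) S ↔ 0 < pmr M S := by
  rw [pm_cx, Complex.zero_lt_real]

theorem sc_cx {M : Matrix (Fin n) (Fin n) ℝ} {K : Finset (Fin n)} (hK : pmr M K ≠ 0) (i j : Fin n) :
    sc (cx M) K i j = (scr M K i j : ℂ) := by
  have h0 : pm (cx M) K ≠ 0 := by rw [pm_cx]; exact_mod_cast hK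
  have h := pp_eq_sc (cx M) K h0 i j
  rw [pp_cx, pm_cx] at h
  have hK' : (pmr M K : ℂ) ≠ 0 := by exact_mod_cast hK
  rw [scr]
  push_cast
  rw [h]
  field_simp

theorem ppr_eq {M : Matrix (Fin n) (Fin n) ℝ} {K : Finset (Fin n)} (hK : pmr M K ≠ 0) (i j : Fin n) :
    ppr M K i j = pmr M K * scr M K i j := by
  rw [scr]; field_simp

theorem pmr_empty (M : Matrix (Fin n) (Fin n) ℝ) : pmr M ∅ = 1 := by
  have h := pm_cx M ∅
  rw [pm_empty] at h
  exact_mod_cast h.symm

theorem scr_empty (M : Matrix (Fin n) (Fin n) ℝ) (i j : Fin n) : scr M ∅ i j = M i j := by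
  have h := sc_cx (M := M) (K := ∅) (by rw [pmr_empty]; exact one_ne_zero) i j
  rw [sc_empty, cx_apply] at h
  exact_mod_cast h.symm

theorem pmr_insert {M : Matrix (Fin n) (Fin n) ℝ} {K : Finset (Fin n)} (hK : pmr M K ≠ 0) {k : Fin n}
    (hk : k ∉ K) : pmr M (insert k K) = pmr M K * scr M K k k := by
  have h0 : pm (cx M) K ≠ 0 := by rw [pm_cx]; exact_mod_cast hK
  have h := pm_insert (cx M) K k h0 hk
  rw [pm_cx, pm_cx, sc_cx hK] at h
  exact_mod_cast h

theorem ppr_insert {M : Matrix (Fin n) (Fin n) ℝ} {K : Finset (Fin n)} (hK : pmr M K ≠ 0) {k : Fin n}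
    (hk : k ∉ K) (i j : Fin n) : ppr M (insert k K) i j
      = pmr M K * (scr M K k k * scr M K i j - scr M K k j * scr M K i k) := by
  have h0 : pm (cx M) K ≠ 0 := by rw [pm_cx]; exact_mod_cast hK
  have h := pp_insert (cx M) h0 hk i j
  rw [pm_cx, pp_cx, sc_cx hK, sc_cx hK, sc_cx hK, sc_cx hK] at h
  exact_mod_cast h

theorem scr_self_pos {M : Matrix (Fin n) (Fin n) ℝ} (hM : ∀ S, 0 < pmr M S) {K : Finset (Fin n)}
    {k : Fin n} (hk : k ∉ K) : 0 < scr M K k k := by
  have h := pmr_insert (hM K).ne' hk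
  have h1 := hM (insert k K)
  rw [h] at h1
  exact (pos_iff_pos_of_mul_pos h1).mp (hM K)

theorem scr_insert {M : Matrix (Fin n) (Fin n) ℝ} (hM : ∀ S, 0 < pmr M S) {K : Finset (Fin n)}
    {k : Fin n} (hk : k ∉ K) (i j : Fin n) :
    scr M (insert k K) i j = scr M K i j - scr M K i k * scr M K k j / scr M K k k := by
  have h1 := scr_self_pos hM hk
  rw [scr, ppr_insert (hM K).ne' hk, pmr_insert (hM K).ne' hk]
  have h2 := (hM K).ne'
  field_simp

/-- the almost principal product of a real matrix -/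
theorem ap_cx {M : Matrix (Fin n) (Fin n) ℝ} (hM : ∀ S, 0 < pmr M S) {K : Finset (Fin n)} {i j : Fin n}
    (hi : i ∉ K) (hj : j ∉ K) (hij : i ≠ j) :
    ap (cx M) K i j = ((pmr M K ^ 2 * (scr M K i j * scr M K j i) : ℝ) : ℂ) := by
  rw [ap_eq_pp (cx M) (fun S => pm_cx_pos.mpr (hM S)) hi hj hij, pp_cx, pp_cx, ppr_eq (hM K).ne',
    ppr_eq (hM K).ne']
  push_cast
  ring

theorem ap_cx_pos {M : Matrix (Fin n) (Fin n) ℝ} (hM : ∀ S, 0 < pmr M S) {K : Finset (Fin n)}
    {i j : Fin n} (hi : i ∉ K) (hj : j ∉ K) (hij : i ≠ j) :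
    0 < ap (cx M) K i j ↔ 0 < scr M K i j * scr M K j i := by
  rw [ap_cx hM hi hj hij, Complex.zero_lt_real]
  have := pow_pos (hM K) 2
  exact ⟨fun h => (pos_iff_pos_of_mul_pos h).mp this, fun h => mul_pos this h⟩

theorem ap_cx_nonneg {M : Matrix (Fin n) (Fin n) ℝ} (hM : ∀ S, 0 < pmr M S) {K : Finset (Fin n)}
    {i j : Fin n} (hi : i ∉ K) (hj : j ∉ K) (hij : i ≠ j) (h : 0 ≤ scr M K i j * scr M K j i) :
    0 ≤ ap (cx M) K i j := by
  rw [ap_cx hM hi hj hij, Complex.zero_le_real]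
  exact mul_nonneg (pow_pos (hM K) 2).le h

/-! ### Schur complement parts -/

/-- The part of `A` on the index sequence `e` after elimination of the indices in `K`: the
submatrix `A(e,e) - A(e,K) A(K)⁻¹ A(K,e)` of the Schur complement of `A(K)` in `A`. -/
noncomputable def schurPart (A : Matrix (Fin n) (Fin n) ℂ) (K : Finset (Fin n)) {m : ℕ}
    (e : Fin m → Fin n) : Matrix (Fin m) (Fin m) ℂ :=
  Matrix.of fun i j => A (e i) (e j) -
    ∑ x : K, ∑ y : K, A (e i) x * (A.submatrix (Subtype.val : K → Fin n) Subtype.val)⁻¹ x y * A y (e j)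

theorem schurPart_apply (A : Matrix (Fin n) (Fin n) ℂ) (K : Finset (Fin n)) {m : ℕ}
    (e : Fin m → Fin n) (i j : Fin m) : schurPart A K e i j = sc A K (e i) (e j) := rfl

theorem pm_schurPart (A : Matrix (Fin n) (Fin n) ℂ) {K : Finset (Fin n)} (hK : pm A K ≠ 0) {m : ℕ}
    {e : Fin m → Fin n} (he : Function.Injective e) (heK : ∀ i, e i ∉ K) (S : Finset (Fin m)) :
    pm A (K ∪ S.image e) = pm A K * pm (schurPart A K e) S := by
  have h := det_sum A K hK (fun x : S => e x.val) (fun x : S => e x.val)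
  rw [pm_eq_det A _ ?_ (K ∪ S.image e) ?_] at h
  · rw [h, pm]
    rfl
  · rintro (x | x) (y | y) hxy
    · exact congrArg _ (Subtype.val_injective hxy)
    · exact absurd (by rw [← show x.val = e y.val from hxy]; exact x.2) (heK y.val)
    · exact absurd (by rw [show e x.val = y.val from hxy]; exact y.2) (heK x.val)
    · exact congrArg _ (Subtype.val_injective (he hxy))
  · ext x
    simp only [Set.mem_range, Sum.exists, Sum.elim_inl, Sum.elim_inr, Finset.coe_union,
      Set.mem_union, Finset.mem_coe, Subtype.exists, exists_prop, exists_eq_right, mem_image]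

theorem ap_schurPart (A : Matrix (Fin n) (Fin n) ℂ) {K : Finset (Fin n)} (hK : pm A K ≠ 0) {m : ℕ}
    {e : Fin m → Fin n} (he : Function.Injective e) (heK : ∀ i, e i ∉ K) (S : Finset (Fin m))
    (i j : Fin m) : ap A (K ∪ S.image e) (e i) (e j) = pm A K ^ 2 * ap (schurPart A K e) S i j := by
  have hins : ∀ (T : Finset (Fin m)) (i : Fin m), insert (e i) (K ∪ T.image e) = K ∪ (insert i T).image e := by
    intro T i
    rw [image_insert, union_insert]
  rw [ap, ap, hins, hins, hins, pm_schurPart A hK he heK, pm_schurPart A hK he heK,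
    pm_schurPart A hK he heK, pm_schurPart A hK he heK]
  ring

theorem isStrictGKK_schurPart {A : Matrix (Fin n) (Fin n) ℂ} (hP : ∀ S, 0 < pm A S) {K : Finset (Fin n)}
    {m : ℕ} {e : Fin m → Fin n} (he : Function.Injective e) (heK : ∀ i, e i ∉ K)
    (h : ∀ (S : Finset (Fin m)) (i j : Fin m), i ∉ S → j ∉ S → i ≠ j →
      0 < ap A (K ∪ S.image e) (e i) (e j)) : IsStrictGKK (schurPart A K e) := by
  rw [isStrictGKK_iff]
  have hK := hP K
  refine ⟨fun S => ?_, fun S i j hi hj hij => ?_⟩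
  · have h1 := hP (K ∪ S.image e)
    rw [pm_schurPart A hK.ne' he heK] at h1
    exact pos_of_mul_pos_left' hK h1
  · have h1 := h S i j hi hj hij
    rw [ap_schurPart A hK.ne' he heK] at h1
    exact pos_of_mul_pos_left' (pow_pos hK 2) h1
where
  pos_of_mul_pos_left' {a b : ℂ} (ha : 0 < a) (hab : 0 < a * b) : 0 < b := by
    obtain ⟨h1, h2⟩ := Complex.pos_iff.mp ha
    obtain ⟨h3, h4⟩ := Complex.pos_iff.mp hab
    rw [Complex.mul_re, ← h2, zero_mul, sub_zero] at h3
    rw [Complex.mul_im, ← h2, zero_mul, add_zero] at h4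
    refine Complex.pos_iff.mpr ⟨(pos_iff_pos_of_mul_pos h3).mp h1, ?_⟩
    rcases mul_eq_zero.mp h4.symm with h | h
    · exact absurd h h1.ne'
    · exact h.symm

end Pool.Agent.Helper21.GK
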