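import Mathlib
import Pool.Agent.Helper21.GK.Real

/-!
First order estimate for Schur complements of matrices that are close to the identity on `K`.
-/

namespace Pool.Agent.Helper21.GK

open Matrix Finset Pool.Agent.Helper5.GKK Pool.Agent.Helper85.SVG
open scoped ComplexOrder

/-- an inverse of a matrix close to the identity is close to the identity -/
theorem inv_close {κ : Type*} [Fintype κ] [DecidableEq κ] (Q R : Matrix κ κ ℂ) (hQR : Q * R = 1)
    {η : ℝ} (h : ∀ x y, ‖Q x y - (1 : Matrix κ κ ℂ) x y‖ ≤ η) (hη : (Fintype.card κ : ℝ) * η ≤ 1 / 4)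
    (x y : κ) : ‖R x y - (1 : Matrix κ κ ℂ) x y‖ ≤ 2 * η := by
  have hη0 : 0 ≤ η := (norm_nonneg _).trans (h x y)
  -- R - 1 = -(Q - 1) R
  have e : R - 1 = -((Q - 1) * R) := by
    rw [Matrix.sub_mul, hQR, Matrix.one_mul]; abel
  have h1 : ∀ x, ‖R x y - (1 : Matrix κ κ ℂ) x y‖ ≤ η * ∑ z, ‖R z y‖ := by
    intro x
    have h2 : R x y - (1 : Matrix κ κ ℂ) x y = -∑ z, (Q x z - (1 : Matrix κ κ ℂ) x z) * R z y := by
      have := congrFun (congrFun e x) y
      rw [Matrix.sub_apply] at this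
      rw [this, Matrix.neg_apply, Matrix.mul_apply]
      rfl
    rw [h2, norm_neg, Finset.mul_sum]
    refine (norm_sum_le _ _).trans (Finset.sum_le_sum fun z _ => ?_)
    rw [norm_mul]
    exact mul_le_mul_of_nonneg_right (h x z) (norm_nonneg _)
  have h3 : ∑ z, ‖R z y‖ ≤ 1 + (Fintype.card κ : ℝ) * η * ∑ z, ‖R z y‖ := by
    calc ∑ z, ‖R z y‖ ≤ ∑ z, (‖(1 : Matrix κ κ ℂ) z y‖ + η * ∑ z, ‖R z y‖) := by
          refine Finset.sum_le_sum fun z _ => ?_
          have h4 : R z y = (1 : Matrix κ κ ℂ) z y + (R z y - (1 : Matrix κ κ ℂ) z y) := by ring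
          calc ‖R z y‖ = ‖(1 : Matrix κ κ ℂ) z y + (R z y - (1 : Matrix κ κ ℂ) z y)‖ := by rw [← h4]
            _ ≤ _ := (norm_add_le _ _).trans (add_le_add le_rfl (h1 z))
      _ = 1 + (Fintype.card κ : ℝ) * η * ∑ z, ‖R z y‖ := by
          rw [Finset.sum_add_distrib, Finset.sum_const, card_univ, nsmul_eq_mul]
          congr 1
          · have : ∀ z, ‖(1 : Matrix κ κ ℂ) z y‖ = if z = y then 1 else 0 := by
              intro z
              rw [Matrix.one_apply]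
              split_ifs <;> simp
            simp only [this]
            simp
          · ring
  have h5 : 0 ≤ ∑ z, ‖R z y‖ := Finset.sum_nonneg fun _ _ => norm_nonneg _
  have h6 : ∑ z, ‖R z y‖ ≤ 2 := by nlinarith
  calc _ ≤ η * ∑ z, ‖R z y‖ := h1 x
    _ ≤ η * 2 := mul_le_mul_of_nonneg_left h6 hη0
    _ = 2 * η := by ring

variable {n : ℕ}

theorem first_order (A : Matrix (Fin n) (Fin n) ℂ) {K : Finset (Fin n)} (hK : pm A K ≠ 0) {η : ℝ}
    (h : ∀ x ∈ K, ∀ y ∈ K, ‖A x y - (1 : Matrix (Fin n) (Fin n) ℂ) x y‖ ≤ η)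
    (hη : (K.card : ℝ) * η ≤ 1 / 4) (i j : Fin n) :
    ‖sc A K i j - (A i j - ∑ x ∈ K, A i x * A x j)‖
      ≤ 2 * η * ((∑ x ∈ K, ‖A i x‖) * ∑ y ∈ K, ‖A y j‖) := by
  set Q := A.submatrix (Subtype.val : K → Fin n) Subtype.val with hQ
  have hu : IsUnit Q.det := isUnit_iff_ne_zero.mpr hK
  have hQR : Q * Q⁻¹ = 1 := Matrix.mul_nonsing_inv Q hu
  have h1 := inv_close Q Q⁻¹ hQR (η := η) (fun x y => by
    have := h x.1 x.2 y.1 y.2
    have e : (1 : Matrix (Fin n) (Fin n) ℂ) x.1 y.1 = (1 : Matrix K K ℂ) x y := by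
      rw [Matrix.one_apply, Matrix.one_apply]
      simp only [Subtype.ext_iff]
    rw [e] at this
    exact this) (by rw [Fintype.card_coe]; exact hη)
  have e1 : ∑ x ∈ K, A i x * A x j = ∑ x : K, ∑ y : K, A i x * (1 : Matrix K K ℂ) x y * A y j := by
    rw [← Finset.sum_coe_sort K (fun x => A i x * A x j)]
    refine Finset.sum_congr rfl fun x _ => ?_
    simp [Matrix.one_apply]
  have e2 : sc A K i j - (A i j - ∑ x ∈ K, A i x * A x j)
      = -∑ x : K, ∑ y : K, A i x * (Q⁻¹ x y - (1 : Matrix K K ℂ) x y) * A y j := by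
    rw [e1, sc, ← hQ]
    have e3 : ∑ x : K, ∑ y : K, A i x * (Q⁻¹ x y - (1 : Matrix K K ℂ) x y) * A y j
        = ∑ x : K, ∑ y : K, A i x * Q⁻¹ x y * A y j
          - ∑ x : K, ∑ y : K, A i x * (1 : Matrix K K ℂ) x y * A y j := by
      rw [← Finset.sum_sub_distrib]
      refine Finset.sum_congr rfl fun x _ => ?_
      rw [← Finset.sum_sub_distrib]
      refine Finset.sum_congr rfl fun y _ => ?_
      ring
    rw [e3]
    ring
  rw [e2, norm_neg, ← Finset.sum_coe_sort K (fun x => ‖A i x‖), ← Finset.sum_coe_sort K (fun y => ‖A y j‖),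
    Finset.sum_mul_sum, Finset.mul_sum]
  refine (norm_sum_le _ _).trans (Finset.sum_le_sum fun x _ => ?_)
  rw [Finset.mul_sum]
  refine (norm_sum_le _ _).trans (Finset.sum_le_sum fun y _ => ?_)
  rw [norm_mul, norm_mul]
  calc ‖A i x‖ * ‖Q⁻¹ x y - (1 : Matrix K K ℂ) x y‖ * ‖A y j‖
      ≤ ‖A i x‖ * (2 * η) * ‖A y j‖ := by
        refine mul_le_mul_of_nonneg_right ?_ (norm_nonneg _)
        exact mul_le_mul_of_nonneg_left (h1 x y) (norm_nonneg _)
    _ = 2 * η * (‖A i x‖ * ‖A y j‖) := by ring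

/-- the estimate for real matrices -/
theorem first_order_real (M : Matrix (Fin n) (Fin n) ℝ) {K : Finset (Fin n)} (hK : 0 < pmr M K) {η : ℝ}
    (h : ∀ x ∈ K, ∀ y ∈ K, |M x y - (if x = y then 1 else 0)| ≤ η)
    (hη : (K.card : ℝ) * η ≤ 1 / 4) {i j : Fin n} {a b : ℝ} (ha : ∑ x ∈ K, |M i x| ≤ a)
    (hb : ∑ x ∈ K, |M x j| ≤ b) (hη0 : 0 ≤ η) :
    |scr M K i j - (M i j - ∑ x ∈ K, M i x * M x j)| ≤ 2 * η * (a * b) := by
  have h0 : pm (cx M) K ≠ 0 := by rw [pm_cx]; exact_mod_cast hK.ne'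
  have h1 := first_order (cx M) h0 (η := η) (fun x hx y hy => by
    have := h x hx y hy
    rw [Matrix.one_apply, cx_apply]
    have e : ((M x y : ℂ) - if x = y then 1 else 0) = ((M x y - (if x = y then 1 else 0) : ℝ) : ℂ) := by
      split_ifs <;> push_cast <;> rfl
    rw [e, Complex.norm_real]
    exact this) hη i j
  rw [sc_cx hK.ne'] at h1
  simp only [cx_apply, Complex.norm_real, Real.norm_eq_abs] at h1
  have e : ((scr M K i j : ℂ) - ((M i j : ℂ) - ∑ x ∈ K, (M i x : ℂ) * (M x j : ℂ)))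
      = ((scr M K i j - (M i j - ∑ x ∈ K, M i x * M x j) : ℝ) : ℂ) := by
    push_cast; rfl
  rw [e, Complex.norm_real, Real.norm_eq_abs] at h1
  refine h1.trans (mul_le_mul_of_nonneg_left ?_ (by positivity))
  exact mul_le_mul ha hb (Finset.sum_nonneg fun _ _ => abs_nonneg _)
    ((Finset.sum_nonneg fun _ _ => abs_nonneg _).trans ha)

end Pool.Agent.Helper21.GK
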