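import Mathlib
import Pool.Agent.Helper21.GK.First

/-!
Real matrices `M` with `M = 1 + t H` outside one index `o`: first order values of the Schur
complements.
-/

namespace Pool.Agent.Helper21.GK

open Matrix Finset Pool.Agent.Helper5.GKK Pool.Agent.Helper85.SVG
open scoped ComplexOrder

variable {n : ℕ}

/-- `M = 1 + t H` outside the index `o` (`H` is only used off the diagonal), and `t` is small -/
structure Near (M : Matrix (Fin n) (Fin n) ℝ) (o : Fin n) (H : Fin n → Fin n → ℝ) (t R : ℝ) : Prop where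
  t0 : 0 < t
  R1 : 1 ≤ R
  small : 5 * (n : ℝ) ^ 2 * R ^ 3 * t ≤ 1 / 8
  hH : ∀ i j, |H i j| ≤ R
  diag : ∀ i, i ≠ o → M i i = 1
  off : ∀ i j, i ≠ o → j ≠ o → i ≠ j → M i j = t * H i j

namespace Near

variable {M : Matrix (Fin n) (Fin n) ℝ} {o : Fin n} {H : Fin n → Fin n → ℝ} {t R : ℝ}

theorem n1 (o : Fin n) : (1 : ℝ) ≤ n := by
  have : 0 < n := Fin.pos o
  exact_mod_cast this

theorem abs_off (h : Near M o H t R) {i j : Fin n} (hi : i ≠ o) (hj : j ≠ o) (hij : i ≠ j) :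
    |M i j| ≤ t * R := by
  rw [h.off i j hi hj hij, abs_mul, abs_of_pos h.t0]
  exact mul_le_mul_of_nonneg_left (h.hH i j) h.t0.le

theorem tR (h : Near M o H t R) : (n : ℝ) * (t * R) ≤ 1 / 40 := by
  have h1 := h.small
  have h2 := n1 o
  have h3 := h.R1
  have h4 := h.t0
  have h5 : (n : ℝ) * R * t ≤ (n : ℝ) ^ 2 * R ^ 3 * t := by
    have h6 : (n : ℝ) * R ≤ (n : ℝ) ^ 2 * R ^ 3 := by
      have h7 : (n : ℝ) ≤ (n : ℝ) ^ 2 := by nlinarith
      have h8 : R ≤ R ^ 3 := by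
        have : 1 ≤ R ^ 2 := by nlinarith
        calc R = R * 1 := by ring
          _ ≤ R * R ^ 2 := mul_le_mul_of_nonneg_left this (by linarith)
          _ = R ^ 3 := by ring
      exact mul_le_mul h7 h8 (by linarith) (by positivity)
    exact mul_le_mul_of_nonneg_right h6 h4.le
  nlinarith

theorem close (h : Near M o H t R) {K : Finset (Fin n)} (ho : o ∉ K) : ∀ x ∈ K, ∀ y ∈ K,
    |M x y - (if x = y then 1 else 0)| ≤ t * R := by
  intro x hx y hy
  have hxo : x ≠ o := fun e => ho (e ▸ hx)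
  have hyo : y ≠ o := fun e => ho (e ▸ hy)
  by_cases hxy : x = y
  · subst hxy
    rw [h.diag x hxo, if_pos rfl, sub_self, abs_zero]
    exact mul_nonneg h.t0.le (by linarith [h.R1])
  · rw [if_neg hxy, sub_zero]
    exact h.abs_off hxo hyo hxy

theorem card_le (K : Finset (Fin n)) : (K.card : ℝ) ≤ n := by
  have := Finset.card_le_univ K
  rw [Fintype.card_fin] at this
  exact_mod_cast this

theorem card_small (h : Near M o H t R) (K : Finset (Fin n)) : (K.card : ℝ) * (t * R) ≤ 1 / 4 := by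
  have h1 := h.tR
  have h2 : (K.card : ℝ) * (t * R) ≤ n * (t * R) :=
    mul_le_mul_of_nonneg_right (card_le K) (mul_nonneg h.t0.le (by linarith [h.R1]))
  linarith

/-- sums over `K` of numbers bounded by `c` -/
theorem sum_le' (K : Finset (Fin n)) {f : Fin n → ℝ} {c : ℝ} (hc : 0 ≤ c) (hf : ∀ x ∈ K, |f x| ≤ c) :
    ∑ x ∈ K, |f x| ≤ n * c := by
  calc ∑ x ∈ K, |f x| ≤ ∑ x ∈ K, c := Finset.sum_le_sum hf
    _ = K.card * c := by rw [Finset.sum_const, nsmul_eq_mul]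
    _ ≤ n * c := mul_le_mul_of_nonneg_right (card_le K) hc

theorem row_sum (h : Near M o H t R) {K : Finset (Fin n)} (ho : o ∉ K) {i : Fin n} (hi : i ≠ o)
    (hiK : i ∉ K) : ∑ x ∈ K, |M i x| ≤ n * (t * R) :=
  sum_le' K (mul_nonneg h.t0.le (by linarith [h.R1])) fun x hx =>
    h.abs_off hi (fun e => ho (e ▸ hx)) (fun e => hiK (e ▸ hx))

theorem col_sum (h : Near M o H t R) {K : Finset (Fin n)} (ho : o ∉ K) {j : Fin n} (hj : j ≠ o)
    (hjK : j ∉ K) : ∑ x ∈ K, |M x j| ≤ n * (t * R) :=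
  sum_le' K (mul_nonneg h.t0.le (by linarith [h.R1])) fun x hx =>
    h.abs_off (fun e => ho (e ▸ hx)) hj (fun e => hjK (e ▸ hx))

theorem abs_sum_mul_le (K : Finset (Fin n)) (f g : Fin n → ℝ) {a b : ℝ}
    (ha : ∀ x ∈ K, |f x| ≤ a) (hb : ∀ x ∈ K, |g x| ≤ b) (ha0 : 0 ≤ a) (hb0 : 0 ≤ b) :
    |∑ x ∈ K, f x * g x| ≤ n * (a * b) := by
  refine (Finset.abs_sum_le_sum_abs _ _).trans ?_
  refine sum_le' K (f := fun x => f x * g x) (mul_nonneg ha0 hb0) fun x hx => ?_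
  rw [abs_mul]
  exact mul_le_mul (ha x hx) (hb x hx) (abs_nonneg _) ha0

/-- diagonal Schur complements are close to one -/
theorem diag_pos (h : Near M o H t R) {K : Finset (Fin n)} (ho : o ∉ K) (hK : 0 < pmr M K) {i : Fin n}
    (hi : i ≠ o) (hiK : i ∉ K) : 0 < scr M K i i := by
  have hR := h.R1
  have ht := h.t0
  have hn := n1 o
  have htR : 0 ≤ t * R := by positivity
  have h1 := first_order_real M hK (h.close ho) (h.card_small K) (h.row_sum ho hi hiK)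
    (h.col_sum ho hi hiK) htR
  have h2 := abs_sum_mul_le K (fun x => M i x) (fun x => M x i) (a := t * R) (b := t * R)
    (fun x hx => h.abs_off hi (fun e => ho (e ▸ hx)) (fun e => hiK (e ▸ hx)))
    (fun x hx => h.abs_off (fun e => ho (e ▸ hx)) hi (fun e => hiK (e ▸ hx))) htR htR
  have h3 := h.tR
  have h4 : t * R ≤ 1 / 40 := by nlinarith
  rw [h.diag i hi] at h1
  have h5 : (n : ℝ) * (t * R * (t * R)) ≤ 1 / 40 * (1 / 40) := by
    calc (n : ℝ) * (t * R * (t * R)) = (n * (t * R)) * (t * R) := by ring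
      _ ≤ 1 / 40 * (1 / 40) := mul_le_mul h3 h4 htR (by norm_num)
  have h6 : 2 * (t * R) * (n * (t * R) * (n * (t * R))) ≤ 2 * (1 / 40) * (1 / 40 * (1 / 40)) := by
    have h7 : 0 ≤ (n : ℝ) * (t * R) := by positivity
    refine mul_le_mul (by linarith) (mul_le_mul h3 h3 h7 (by norm_num)) (by positivity) (by norm_num)
  have h8 := abs_le.mp h1
  have h9 := abs_le.mp h2
  linarith [h8.1, h8.2, h9.1, h9.2]

theorem pmr_pos (h : Near M o H t R) (K : Finset (Fin n)) (ho : o ∉ K) : 0 < pmr M K := by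
  induction K using Finset.induction_on with
  | empty => rw [pmr_empty]; exact one_pos
  | insert k K hk ih =>
    have ho' : o ∉ K := fun e => ho (mem_insert_of_mem e)
    have hko : k ≠ o := fun e => ho (e ▸ mem_insert_self k K)
    rw [pmr_insert (ih ho').ne' hk]
    exact mul_pos (ih ho') (h.diag_pos ho' (ih ho') hko hk)

theorem off_est (h : Near M o H t R) {K : Finset (Fin n)} (ho : o ∉ K) {i j : Fin n} (hi : i ≠ o)
    (hj : j ≠ o) (hij : i ≠ j) (hiK : i ∉ K) (hjK : j ∉ K) :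
    |scr M K i j - t * H i j| ≤ 5 * (n : ℝ) ^ 2 * R ^ 3 * t ^ 2 := by
  have hR := h.R1
  have ht := h.t0
  have hn := n1 o
  have htR : 0 ≤ t * R := by positivity
  have h1 := first_order_real M (h.pmr_pos K ho) (h.close ho) (h.card_small K) (h.row_sum ho hi hiK)
    (h.col_sum ho hj hjK) htR
  have h2 := abs_sum_mul_le K (fun x => M i x) (fun x => M x j) (a := t * R) (b := t * R)
    (fun x hx => h.abs_off hi (fun e => ho (e ▸ hx)) (fun e => hiK (e ▸ hx)))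
    (fun x hx => h.abs_off (fun e => ho (e ▸ hx)) hj (fun e => hjK (e ▸ hx))) htR htR
  have h3 := h.tR
  have h4 : t * R ≤ 1 / 40 := by nlinarith
  rw [h.off i j hi hj hij] at h1
  have h5 : (n : ℝ) * (t * R * (t * R)) ≤ (n : ℝ) ^ 2 * R ^ 3 * t ^ 2 := by
    have e1 : (n : ℝ) ≤ (n : ℝ) ^ 2 := by nlinarith
    have e2 : R ^ 2 ≤ R ^ 3 := by
      have : 0 ≤ R ^ 2 := by positivity
      nlinarith
    calc (n : ℝ) * (t * R * (t * R)) = n * R ^ 2 * t ^ 2 := by ring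
      _ ≤ (n : ℝ) ^ 2 * R ^ 3 * t ^ 2 := by
        refine mul_le_mul_of_nonneg_right (mul_le_mul e1 e2 (by positivity) (by positivity)) (by positivity)
  have h6 : 2 * (t * R) * (n * (t * R) * (n * (t * R))) ≤ (n : ℝ) ^ 2 * R ^ 3 * t ^ 2 := by
    have h7 : 2 * (t * R) * (n * (t * R) * (n * (t * R))) = (2 * t) * ((n : ℝ) ^ 2 * R ^ 3 * t ^ 2) := by ring
    rw [h7]
    have h8 : 0 ≤ (n : ℝ) ^ 2 * R ^ 3 * t ^ 2 := by positivity
    have h9 : 2 * t ≤ 1 := by nlinarith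
    nlinarith
  have h8 := abs_le.mp h1
  have h9 := abs_le.mp h2
  have h10 : 0 ≤ (n : ℝ) ^ 2 * R ^ 3 * t ^ 2 := by positivity
  rw [abs_le]
  constructor <;> linarith [h8.1, h8.2, h9.1, h9.2]

/-- row `o` -/
theorem row_est (h : Near M o H t R) {K : Finset (Fin n)} (ho : o ∉ K) {ξ α : Fin n → ℝ}
    (hM : ∀ x, x ≠ o → M o x = ξ x + t * α x) (hξ : ∀ x, |ξ x| ≤ R) (hα : ∀ x, |α x| ≤ R)
    {j : Fin n} (hj : j ≠ o) (hjK : j ∉ K) :
    |scr M K o j - (ξ j + t * (α j - ∑ x ∈ K, ξ x * H x j))| ≤ 5 * (n : ℝ) ^ 2 * R ^ 3 * t ^ 2 := by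
  have hR := h.R1
  have ht := h.t0
  have hn := n1 o
  have htR : 0 ≤ t * R := by positivity
  have h3 := h.tR
  have h4 : t * R ≤ 1 / 40 := by nlinarith
  have ht1 : t ≤ 1 / 40 := by nlinarith
  have hb : ∑ x ∈ K, |M o x| ≤ n * (2 * R) := by
    refine sum_le' K (by positivity) fun x hx => ?_
    rw [hM x (fun e => ho (e ▸ hx))]
    have e1 := abs_add_le (ξ x) (t * α x)
    have e2 : |t * α x| ≤ R := by
      rw [abs_mul, abs_of_pos ht]
      nlinarith [hα x, abs_nonneg (α x)]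
    linarith [hξ x]
  have h1 := first_order_real M (h.pmr_pos K ho) (h.close ho) (h.card_small K) hb
    (h.col_sum ho hj hjK) htR
  have e3 : ∑ x ∈ K, M o x * M x j = t * ∑ x ∈ K, ξ x * H x j + t ^ 2 * ∑ x ∈ K, α x * H x j := by
    rw [Finset.mul_sum, Finset.mul_sum, ← Finset.sum_add_distrib]
    refine Finset.sum_congr rfl fun x hx => ?_
    rw [hM x (fun e => ho (e ▸ hx)), h.off x j (fun e => ho (e ▸ hx)) hj (fun e => hjK (e ▸ hx))]
    ring
  have h2 := abs_sum_mul_le K α (fun x => H x j) (a := R) (b := R) (fun x _ => hα x)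
    (fun x _ => h.hH x j) (by linarith) (by linarith)
  rw [hM j hj, e3] at h1
  have h5 : t ^ 2 * (n * (R * R)) ≤ (n : ℝ) ^ 2 * R ^ 3 * t ^ 2 := by
    have e1 : (n : ℝ) ≤ (n : ℝ) ^ 2 := by nlinarith
    have e2 : R ^ 2 ≤ R ^ 3 := by
      have : 0 ≤ R ^ 2 := by positivity
      nlinarith
    calc t ^ 2 * (n * (R * R)) = n * R ^ 2 * t ^ 2 := by ring
      _ ≤ (n : ℝ) ^ 2 * R ^ 3 * t ^ 2 := by
        refine mul_le_mul_of_nonneg_right (mul_le_mul e1 e2 (by positivity) (by positivity)) (by positivity)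
  have h6 : 2 * (t * R) * (n * (2 * R) * (n * (t * R))) = 4 * ((n : ℝ) ^ 2 * R ^ 3 * t ^ 2) := by ring
  have h7 : |t ^ 2 * ∑ x ∈ K, α x * H x j| ≤ (n : ℝ) ^ 2 * R ^ 3 * t ^ 2 := by
    rw [abs_mul, abs_of_nonneg (by positivity : (0:ℝ) ≤ t ^ 2)]
    exact (mul_le_mul_of_nonneg_left h2 (by positivity)).trans h5
  have h8 := abs_le.mp h1
  have h9 := abs_le.mp h7
  rw [abs_le]
  constructor <;> linarith [h8.1, h8.2, h9.1, h9.2]

/-- column `o` -/
theorem col_est (h : Near M o H t R) {K : Finset (Fin n)} (ho : o ∉ K) {υ β : Fin n → ℝ} {ε : ℝ}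
    (hε : 0 ≤ ε) (hM : ∀ x, x ≠ o → M x o = ε * (υ x + t * β x)) (hυ : ∀ x, |υ x| ≤ R)
    (hβ : ∀ x, |β x| ≤ R) {j : Fin n} (hj : j ≠ o) (hjK : j ∉ K) :
    |scr M K j o - ε * (υ j + t * (β j - ∑ x ∈ K, H j x * υ x))|
      ≤ ε * (5 * (n : ℝ) ^ 2 * R ^ 3 * t ^ 2) := by
  have hR := h.R1
  have ht := h.t0
  have hn := n1 o
  have htR : 0 ≤ t * R := by positivity
  have h3 := h.tR
  have h4 : t * R ≤ 1 / 40 := by nlinarith
  have ht1 : t ≤ 1 / 40 := by nlinarith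
  have hb : ∑ x ∈ K, |M x o| ≤ n * (ε * (2 * R)) := by
    refine sum_le' K (by positivity) fun x hx => ?_
    rw [hM x (fun e => ho (e ▸ hx)), abs_mul, abs_of_nonneg hε]
    have e1 := abs_add_le (υ x) (t * β x)
    have e2 : |t * β x| ≤ R := by
      rw [abs_mul, abs_of_pos ht]
      nlinarith [hβ x, abs_nonneg (β x)]
    exact mul_le_mul_of_nonneg_left (by linarith [hυ x]) hε
  have h1 := first_order_real M (h.pmr_pos K ho) (h.close ho) (h.card_small K) (h.row_sum ho hj hjK)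
    hb htR
  have e3 : ∑ x ∈ K, M j x * M x o
      = ε * (t * ∑ x ∈ K, H j x * υ x) + ε * (t ^ 2 * ∑ x ∈ K, H j x * β x) := by
    rw [Finset.mul_sum, Finset.mul_sum, Finset.mul_sum, Finset.mul_sum, ← Finset.sum_add_distrib]
    refine Finset.sum_congr rfl fun x hx => ?_
    rw [hM x (fun e => ho (e ▸ hx)), h.off j x hj (fun e => ho (e ▸ hx)) (fun e => hjK (e ▸ hx))]
    ring
  have h2 := abs_sum_mul_le K (fun x => H j x) β (a := R) (b := R) (fun x _ => h.hH j x)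
    (fun x _ => hβ x) (by linarith) (by linarith)
  rw [hM j hj, e3] at h1
  have h5 : t ^ 2 * (n * (R * R)) ≤ (n : ℝ) ^ 2 * R ^ 3 * t ^ 2 := by
    have e1 : (n : ℝ) ≤ (n : ℝ) ^ 2 := by nlinarith
    have e2 : R ^ 2 ≤ R ^ 3 := by
      have : 0 ≤ R ^ 2 := by positivity
      nlinarith
    calc t ^ 2 * (n * (R * R)) = n * R ^ 2 * t ^ 2 := by ring
      _ ≤ (n : ℝ) ^ 2 * R ^ 3 * t ^ 2 := by
        refine mul_le_mul_of_nonneg_right (mul_le_mul e1 e2 (by positivity) (by positivity)) (by positivity)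
  have h6 : 2 * (t * R) * (n * (t * R) * (n * (ε * (2 * R)))) = ε * (4 * ((n : ℝ) ^ 2 * R ^ 3 * t ^ 2)) := by
    ring
  have h7 : |ε * (t ^ 2 * ∑ x ∈ K, H j x * β x)| ≤ ε * ((n : ℝ) ^ 2 * R ^ 3 * t ^ 2) := by
    rw [abs_mul, abs_of_nonneg hε, abs_mul, abs_of_nonneg (by positivity : (0:ℝ) ≤ t ^ 2)]
    exact mul_le_mul_of_nonneg_left ((mul_le_mul_of_nonneg_left h2 (by positivity)).trans h5) hε
  have h8 := abs_le.mp h1
  have h9 := abs_le.mp h7
  rw [abs_le]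
  constructor <;> nlinarith [h8.1, h8.2, h9.1, h9.2]

end Near

end Pool.Agent.Helper21.GK
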