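import Mathlib
import Pool.Agent.Helper21.GK.Near

/-!
The family of examples: four special indices `p`, `q`, `s`, `o` and `r` indices of type `c`.
-/

namespace Pool.Agent.Helper21.GK

open Matrix Finset Pool.Agent.Helper5.GKK Pool.Agent.Helper85.SVG
open scoped ComplexOrder

/-- the types of the indices -/
inductive T : Type
  | p | q | s | c | o
  deriving DecidableEq

/-- the type of an index -/
def ty {r : ℕ} (i : Fin (r + 4)) : T :=
  if i.val = 0 then .p else if i.val = 1 then .q else if i.val = 2 then .s else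
    if i.val = 3 then .o else .c

/-- the matrix `H` (off the diagonal), in terms of the types -/
noncomputable def hh (r a c d : ℝ) : T → T → ℝ
  | .c, .p => -1
  | .p, .c => a
  | .s, .p => r + 1
  | .s, .q => -(r - 1 / 2)
  | .p, .s => c
  | .q, .s => d
  | _, _ => 1

/-- the last row: leading and first order parts -/
noncomputable def xi : T → ℝ
  | .p => 0
  | .q => 0
  | .o => 0
  | _ => 1

noncomputable def al : T → ℝ
  | .p => 1 / 2
  | .q => 1 / 4
  | _ => 0

/-- the last column: leading and first order parts -/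
noncomputable def up (σ : ℝ) : T → ℝ
  | .s => σ
  | .c => 1
  | _ => 0

noncomputable def be (π κ : ℝ) : T → ℝ
  | .p => π
  | .q => κ
  | _ => 0

variable {r : ℕ}

/-- the indices -/
def ip : Fin (r + 4) := ⟨0, by omega⟩
def iq : Fin (r + 4) := ⟨1, by omega⟩
def is : Fin (r + 4) := ⟨2, by omega⟩
def io : Fin (r + 4) := ⟨3, by omega⟩

theorem ty_eq_p {i : Fin (r + 4)} : ty i = .p ↔ i = ip := by
  rw [Fin.ext_iff, ip, ty]
  split_ifs <;> simp_all
theorem ty_eq_q {i : Fin (r + 4)} : ty i = .q ↔ i = iq := by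
  rw [Fin.ext_iff, iq, ty]
  split_ifs <;> simp_all
theorem ty_eq_s {i : Fin (r + 4)} : ty i = .s ↔ i = is := by
  rw [Fin.ext_iff, is, ty]
  split_ifs <;> simp_all
theorem ty_eq_o {i : Fin (r + 4)} : ty i = .o ↔ i = io := by
  rw [Fin.ext_iff, io, ty]
  split_ifs <;> simp_all

/-- the matrices -/
noncomputable def mat (r : ℕ) (t a c d σ π κ ε : ℝ) : Matrix (Fin (r + 4)) (Fin (r + 4)) ℝ :=
  Matrix.of fun i j => if i = j then 1 else if i = io then xi (ty j) + t * al (ty j)
    else if j = io then ε * (up σ (ty i) + t * be π κ (ty i)) else t * hh r a c d (ty i) (ty j)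

/-- the number of indices of type `s` in `K` -/
def cS (K : Finset (Fin (r + 4))) : ℕ := (K.filter fun x => ty x = .s).card
/-- the number of indices of type `c` in `K` -/
def cC (K : Finset (Fin (r + 4))) : ℕ := (K.filter fun x => ty x = .c).card

theorem cS_le (K : Finset (Fin (r + 4))) : cS K ≤ 1 := by
  refine Finset.card_le_one.mpr fun a ha b hb => ?_
  rw [mem_filter] at ha hb
  rw [ty_eq_s.mp ha.2, ty_eq_s.mp hb.2]

theorem cS_eq_zero {K : Finset (Fin (r + 4))} (h : is ∉ K) : cS K = 0 := by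
  refine Finset.card_eq_zero.mpr (Finset.filter_eq_empty_iff.mpr fun x hx hs => h ?_)
  rw [← ty_eq_s.mp hs]; exact hx

theorem cS_eq_one {K : Finset (Fin (r + 4))} (h : is ∈ K) : cS K = 1 := by
  refine le_antisymm (cS_le K) (Finset.card_pos.mpr ⟨is, mem_filter.mpr ⟨h, ty_eq_s.mpr rfl⟩⟩)

theorem card_C : (univ.filter fun x : Fin (r + 4) => ty x = .c).card = r := by
  have h : (univ.filter fun x : Fin (r + 4) => ty x = .c) = univ \ {ip, iq, is, io} := by
    ext x
    simp only [mem_filter, mem_univ, true_and, mem_sdiff, mem_insert, mem_singleton]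
    rw [← ty_eq_p, ← ty_eq_q, ← ty_eq_s, ← ty_eq_o]
    cases ty x <;> simp
  rw [h, card_sdiff_of_subset (subset_univ _), card_univ, Fintype.card_fin]
  have h2 : ({ip, iq, is, io} : Finset (Fin (r + 4))).card = 4 := by
    rw [card_insert_of_notMem, card_insert_of_notMem, card_insert_of_notMem, card_singleton] <;>
      simp [ip, iq, is, io, Fin.ext_iff]
  rw [h2]; omega

theorem cC_le (K : Finset (Fin (r + 4))) : cC K ≤ r := by
  calc cC K ≤ (univ.filter fun x : Fin (r + 4) => ty x = .c).card :=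
        card_le_card (filter_subset_filter _ (subset_univ K))
    _ = r := card_C

theorem cC_lt {K : Finset (Fin (r + 4))} {i : Fin (r + 4)} (hi : ty i = .c) (h : i ∉ K) : cC K < r := by
  have h1 : (K.filter fun x => ty x = .c) ⊂ (univ.filter fun x : Fin (r + 4) => ty x = .c) := by
    refine (Finset.ssubset_iff_of_subset (filter_subset_filter _ (subset_univ K))).mpr
      ⟨i, mem_filter.mpr ⟨mem_univ _, hi⟩, fun hh => h (mem_filter.mp hh).1⟩
  calc cC K < _ := card_lt_card h1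
    _ = r := card_C

theorem cC_pos {K : Finset (Fin (r + 4))} {i : Fin (r + 4)} (hi : ty i = .c) (h : i ∈ K) : 1 ≤ cC K :=
  Finset.card_pos.mpr ⟨i, mem_filter.mpr ⟨h, hi⟩⟩

/-- sums over `K` of functions of the type that vanish on `p`, `q`, `o` -/
theorem sum_ty (K : Finset (Fin (r + 4))) (f : T → ℝ) (hp : f .p = 0) (hq : f .q = 0) (ho : f .o = 0) :
    ∑ x ∈ K, f (ty x) = cS K * f .s + cC K * f .c := by
  have h : ∀ x : Fin (r + 4), f (ty x) = (if ty x = .s then f .s else 0) + (if ty x = .c then f .c else 0) := by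
    intro x
    cases hx : ty x <;> simp [hp, hq, ho]
  rw [Finset.sum_congr rfl fun x _ => h x, Finset.sum_add_distrib, ← Finset.sum_filter,
    ← Finset.sum_filter, Finset.sum_const, Finset.sum_const, nsmul_eq_mul, nsmul_eq_mul]
  rfl

/-- bounds on the parameters -/
structure Par (r : ℕ) (t a c d : ℝ) : Prop where
  r1 : 1 ≤ r
  t0 : 0 < t
  small : 5 * ((r + 4 : ℕ) : ℝ) ^ 2 * (4 * ((r : ℝ) + 1)) ^ 3 * t ≤ 1 / 8
  ha : -2 ≤ a ∧ a ≤ -1
  hc : 1 ≤ c ∧ c ≤ r + 1
  hd : -(r + 1) ≤ d ∧ d ≤ -1 / 2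

theorem abs_hh {t a c d : ℝ} (h : Par r t a c d) (x y : T) : |hh r a c d x y| ≤ 4 * ((r : ℝ) + 1) := by
  have hr : (1 : ℝ) ≤ r := by exact_mod_cast h.r1
  obtain ⟨h1, h2⟩ := h.ha
  obtain ⟨h3, h4⟩ := h.hc
  obtain ⟨h5, h6⟩ := h.hd
  rw [abs_le]
  cases x <;> cases y <;> simp only [hh] <;> constructor <;> linarith

theorem near {t a c d : ℝ} (h : Par r t a c d) (σ π κ ε : ℝ) :
    Near (mat r t a c d σ π κ ε) io (fun i j => hh r a c d (ty i) (ty j)) t (4 * ((r : ℝ) + 1)) where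
  t0 := h.t0
  R1 := by
    have hr : (1 : ℝ) ≤ r := by exact_mod_cast h.r1
    linarith
  small := h.small
  hH := fun i j => abs_hh h _ _
  diag := fun i _ => by simp [mat]
  off := fun i j hi hj hij => by simp [mat, hi, hj, hij]

theorem mat_row (t a c d σ π κ ε : ℝ) : ∀ x, x ≠ io →
    mat r t a c d σ π κ ε io x = xi (ty x) + t * al (ty x) := by
  intro x hx
  simp [mat, hx.symm]

theorem mat_col (t a c d σ π κ ε : ℝ) : ∀ x, x ≠ io →
    mat r t a c d σ π κ ε x io = ε * (up σ (ty x) + t * be π κ (ty x)) := by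
  intro x hx
  simp [mat, hx]

theorem abs_xi (x : T) : |xi x| ≤ 4 * ((r : ℝ) + 1) := by
  have hr : (0 : ℝ) ≤ r := Nat.cast_nonneg r
  cases x <;> simp [xi] <;> linarith

theorem abs_al (x : T) : |al x| ≤ 4 * ((r : ℝ) + 1) := by
  have hr : (0 : ℝ) ≤ r := Nat.cast_nonneg r
  rw [abs_le]
  cases x <;> simp only [al] <;> constructor <;> linarith

theorem abs_up {σ : ℝ} (h : |σ| ≤ 4 * ((r : ℝ) + 1)) (x : T) : |up σ x| ≤ 4 * ((r : ℝ) + 1) := by
  have hr : (0 : ℝ) ≤ r := Nat.cast_nonneg r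
  cases x <;> simp [up] <;> linarith

theorem abs_be {π κ : ℝ} (h : |π| ≤ 4 * ((r : ℝ) + 1)) (h' : |κ| ≤ 4 * ((r : ℝ) + 1)) (x : T) :
    |be π κ x| ≤ 4 * ((r : ℝ) + 1) := by
  have hr : (0 : ℝ) ≤ r := Nat.cast_nonneg r
  cases x <;> simp [be] <;> linarith

/-- the first order values of row `o` at `p` and `q` -/
noncomputable def vp (K : Finset (Fin (r + 4))) : ℝ := 1 / 2 + cC K - (r + 1) * cS K
noncomputable def vq (K : Finset (Fin (r + 4))) : ℝ := 1 / 4 - cC K + (r - 1 / 2) * cS K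

/-- the first order values of column `o` at `p` and `q` -/
noncomputable def wp (a c σ π : ℝ) (K : Finset (Fin (r + 4))) : ℝ := π - cS K * (c * σ) - cC K * a
noncomputable def wq (d σ κ : ℝ) (K : Finset (Fin (r + 4))) : ℝ := κ - cS K * (d * σ) - cC K

/-- sign from a first order estimate -/
theorem sign_of_est {z v t C e : ℝ} (ht : 0 < t) (h : |z - t * v| ≤ C * t ^ 2 ) (hC : C * t ≤ 1 / 8)
    (he : 1 / 8 < e) : (e ≤ v → 0 < z) ∧ (v ≤ -e → z < 0) := by
  have h1 := abs_le.mp h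
  have h2 : C * t ^ 2 ≤ 1 / 8 * t := by
    calc C * t ^ 2 = C * t * t := by ring
      _ ≤ 1 / 8 * t := mul_le_mul_of_nonneg_right hC ht.le
  constructor
  · intro h3
    nlinarith [h1.1]
  · intro h3
    nlinarith [h1.2]

section signs

variable {t a c d : ℝ} (h : Par r t a c d) (σ π κ ε : ℝ) {K : Finset (Fin (r + 4))} (ho : io ∉ K)
include h ho

omit ho in
theorem t_small : 5 * ((r + 4 : ℕ) : ℝ) ^ 2 * (4 * ((r : ℝ) + 1)) ^ 3 * t ^ 2 ≤ t / 8 := by
  have h1 := h.small
  have h2 := h.t0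
  nlinarith

/-- signs of the Schur complements in the block -/
theorem sign_block {i j : Fin (r + 4)} (hi : i ≠ io) (hj : j ≠ io) (hij : i ≠ j) (hiK : i ∉ K)
    (hjK : j ∉ K) : (0 < hh r a c d (ty i) (ty j) → 0 < scr (mat r t a c d σ π κ ε) K i j) ∧
      (hh r a c d (ty i) (ty j) < 0 → scr (mat r t a c d σ π κ ε) K i j < 0) := by
  have h1 := (near h σ π κ ε).off_est ho hi hj hij hiK hjK
  have h2 := sign_of_est (e := 1 / 2) h.t0 h1 h.small (by norm_num)
  have hr : (1 : ℝ) ≤ r := by exact_mod_cast h.r1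
  have key : 1 / 2 ≤ hh r a c d (ty i) (ty j) ∨ hh r a c d (ty i) (ty j) ≤ -(1 / 2) := by
    obtain ⟨h1, h2⟩ := h.ha
    obtain ⟨h3, h4⟩ := h.hc
    obtain ⟨h5, h6⟩ := h.hd
    cases ty i <;> cases ty j <;> simp only [hh] <;>
      first | (left; linarith) | (right; linarith)
  rcases key with k | k
  · exact ⟨fun _ => h2.1 k, fun hh => absurd hh (by linarith)⟩
  · exact ⟨fun hh => absurd hh (by linarith), fun _ => h2.2 k⟩

/-- row `o` at indices of type `s` and `c` -/
theorem sign_row_heavy {j : Fin (r + 4)} (hj : ty j = .s ∨ ty j = .c) (hjK : j ∉ K) :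
    0 < scr (mat r t a c d σ π κ ε) K io j := by
  have hjo : j ≠ io := by
    intro e
    rw [← ty_eq_o] at e
    rcases hj with h | h <;> rw [h] at e <;> cases e
  have h1 := (near h σ π κ ε).row_est ho (mat_row t a c d σ π κ ε) (fun x => abs_xi (r := r) (ty x))
    (fun x => abs_al (r := r) (ty x)) hjo hjK
  have hal : al (ty j) = 0 := by rcases hj with h | h <;> rw [h] <;> rfl
  have hxi : xi (ty j) = 1 := by rcases hj with h | h <;> rw [h] <;> rfl
  have h2 := Near.abs_sum_mul_le K (fun x => xi (ty x)) (fun x => hh r a c d (ty x) (ty j))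
    (a := 1) (b := 4 * ((r : ℝ) + 1)) (fun x _ => by cases ty x <;> simp [xi]) (fun x _ => abs_hh h _ _)
    (by norm_num) (by positivity)
  rw [hal, hxi] at h1
  have h3 := (near h σ π κ ε).tR
  have h4 := t_small h
  have ht := h.t0
  have h5 := abs_le.mp h1
  have h6 := abs_le.mp h2
  have h7 : t * ∑ x ∈ K, xi (ty x) * hh r a c d (ty x) (ty j) ≤ 1 / 40 := by
    calc t * ∑ x ∈ K, xi (ty x) * hh r a c d (ty x) (ty j)
        ≤ t * (((r + 4 : ℕ) : ℝ) * (1 * (4 * ((r : ℝ) + 1)))) := mul_le_mul_of_nonneg_left h6.2 ht.le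
      _ = ((r + 4 : ℕ) : ℝ) * (t * (4 * ((r : ℝ) + 1))) := by ring
      _ ≤ 1 / 40 := h3
  have h8 : t ≤ 1 / 40 := by
    have e1 : (1 : ℝ) ≤ ((r + 4 : ℕ) : ℝ) := by push_cast; linarith [(Nat.cast_nonneg r : (0:ℝ) ≤ r)]
    have e2 : (1 : ℝ) ≤ 4 * ((r : ℝ) + 1) := by linarith [(Nat.cast_nonneg r : (0:ℝ) ≤ r)]
    nlinarith
  have e : t * (0 - ∑ x ∈ K, xi (ty x) * hh r a c d (ty x) (ty j))
      = -(t * ∑ x ∈ K, xi (ty x) * hh r a c d (ty x) (ty j)) := by ring
  rw [e] at h5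
  linarith [h5.1]

theorem row_p (hK : ip ∉ K) :
    |scr (mat r t a c d σ π κ ε) K io ip - t * vp K|
      ≤ 5 * ((r + 4 : ℕ) : ℝ) ^ 2 * (4 * ((r : ℝ) + 1)) ^ 3 * t ^ 2 := by
  have h1 := (near h σ π κ ε).row_est ho (mat_row t a c d σ π κ ε) (fun x => abs_xi (r := r) (ty x))
    (fun x => abs_al (r := r) (ty x)) (j := ip) (by simp [ip, io]) hK
  have hty : ty (ip : Fin (r + 4)) = .p := ty_eq_p.mpr rfl
  have e := sum_ty K (fun x => xi x * hh r a c d x .p) (by simp [xi]) (by simp [xi]) (by simp [xi])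
  rw [hty, e] at h1
  convert h1 using 2
  simp only [vp, xi, al, hh]
  ring

theorem row_q (hK : iq ∉ K) :
    |scr (mat r t a c d σ π κ ε) K io iq - t * vq K|
      ≤ 5 * ((r + 4 : ℕ) : ℝ) ^ 2 * (4 * ((r : ℝ) + 1)) ^ 3 * t ^ 2 := by
  have h1 := (near h σ π κ ε).row_est ho (mat_row t a c d σ π κ ε) (fun x => abs_xi (r := r) (ty x))
    (fun x => abs_al (r := r) (ty x)) (j := iq) (by simp [iq, io]) hK
  have hty : ty (iq : Fin (r + 4)) = .q := ty_eq_q.mpr rfl
  have e := sum_ty K (fun x => xi x * hh r a c d x .q) (by simp [xi]) (by simp [xi]) (by simp [xi])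
  rw [hty, e] at h1
  convert h1 using 2
  simp only [vq, xi, al, hh]
  ring

end signs

end Pool.Agent.Helper21.GK
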