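import Mathlib
import Pool.Agent.Helper21.GK.Fam

/-!
Signs of the Schur complements in the last column.
-/

namespace Pool.Agent.Helper21.GK

open Matrix Finset Pool.Agent.Helper5.GKK Pool.Agent.Helper85.SVG
open scoped ComplexOrder

variable {r : ℕ}

/-- bounds on the parameters of the last column -/
structure ParY (r : ℕ) (σ π κ : ℝ) : Prop where
  hσ : |σ| ≤ 4 * ((r : ℝ) + 1)
  hπ : |π| ≤ 4 * ((r : ℝ) + 1)
  hκ : |κ| ≤ 4 * ((r : ℝ) + 1)

section signs

variable {t a c d σ π κ ε : ℝ} (h : Par r t a c d) (hY : ParY r σ π κ) (hε : 0 < ε)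
  {K : Finset (Fin (r + 4))} (ho : io ∉ K)
include h hY hε ho

/-- column `o` at indices of type `s` and `c` -/
theorem sign_col_heavy {j : Fin (r + 4)} (hj : ty j = .s ∨ ty j = .c) (hjK : j ∉ K)
    (hup : 1 / 8 ≤ up σ (ty j)) : 0 < scr (mat r t a c d σ π κ ε) K j io := by
  have hjo : j ≠ io := by
    intro e
    rw [← ty_eq_o] at e
    rcases hj with h | h <;> rw [h] at e <;> cases e
  have h1 := (near h σ π κ ε).col_est ho hε.le (mat_col t a c d σ π κ ε)
    (fun x => abs_up (r := r) hY.hσ (ty x)) (fun x => abs_be (r := r) hY.hπ hY.hκ (ty x)) hjo hjK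
  have hbe : be π κ (ty j) = 0 := by rcases hj with h | h <;> rw [h] <;> rfl
  have h2 := Near.abs_sum_mul_le K (fun x => hh r a c d (ty j) (ty x)) (fun x => up σ (ty x))
    (a := 4 * ((r : ℝ) + 1)) (b := 4 * ((r : ℝ) + 1)) (fun x _ => abs_hh h _ _)
    (fun x _ => abs_up (r := r) hY.hσ _) (by positivity) (by positivity)
  rw [hbe] at h1
  have h4 := t_small h
  have hsm := h.small
  have ht := h.t0
  have h5 := abs_le.mp h1
  have h6 := abs_le.mp h2
  have e1 : (1 : ℝ) ≤ ((r + 4 : ℕ) : ℝ) := by push_cast; linarith [(Nat.cast_nonneg r : (0:ℝ) ≤ r)]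
  have e2 : (1 : ℝ) ≤ 4 * ((r : ℝ) + 1) := by linarith [(Nat.cast_nonneg r : (0:ℝ) ≤ r)]
  set N : ℝ := ((r + 4 : ℕ) : ℝ) with hN
  set R : ℝ := 4 * ((r : ℝ) + 1) with hR
  have h7 : t * ∑ x ∈ K, hh r a c d (ty j) (ty x) * up σ (ty x) ≤ 1 / 40 := by
    calc t * ∑ x ∈ K, hh r a c d (ty j) (ty x) * up σ (ty x)
        ≤ t * (N * (R * R)) := mul_le_mul_of_nonneg_left h6.2 ht.le
      _ ≤ t * (N ^ 2 * R ^ 3) := by
          refine mul_le_mul_of_nonneg_left ?_ ht.le
          have e3 : N ≤ N ^ 2 := by nlinarith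
          have e4 : R * R ≤ R ^ 3 := by
            have : 0 ≤ R * R := by positivity
            nlinarith
          exact mul_le_mul e3 e4 (by positivity) (by positivity)
      _ ≤ 1 / 40 := by linarith
  have h8 : t ≤ 1 / 40 := by
    have e3 : 1 ≤ N ^ 2 * R ^ 3 := by
      have e4 : 1 ≤ N ^ 2 := by nlinarith
      have e5 : 1 ≤ R ^ 3 := one_le_pow₀ e2
      nlinarith
    nlinarith
  have h9 : 1 / 20 * ε ≤ scr (mat r t a c d σ π κ ε) K j io := by
    have e3 : ε * (5 * N ^ 2 * R ^ 3 * t ^ 2) ≤ ε * (t / 8) := mul_le_mul_of_nonneg_left h4 hε.le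
    have e4 : ε * (1 / 8 - 1 / 40) ≤ ε * (up σ (ty j) + t * (0 - ∑ x ∈ K, hh r a c d (ty j) (ty x) * up σ (ty x))) := by
      refine mul_le_mul_of_nonneg_left ?_ hε.le
      linarith
    nlinarith [h5.1]
  nlinarith

/-- column `o` at `p` -/
theorem sign_col_p (hK : ip ∉ K) :
    (1 / 4 ≤ wp a c σ π K → 0 < scr (mat r t a c d σ π κ ε) K ip io) ∧
      (wp a c σ π K ≤ -(1 / 4) → scr (mat r t a c d σ π κ ε) K ip io < 0) := by
  have h1 := (near h σ π κ ε).col_est ho hε.le (mat_col t a c d σ π κ ε)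
    (fun x => abs_up (r := r) hY.hσ (ty x)) (fun x => abs_be (r := r) hY.hπ hY.hκ (ty x))
    (j := ip) (by simp [ip, io]) hK
  have hty : ty (ip : Fin (r + 4)) = .p := ty_eq_p.mpr rfl
  have e := sum_ty K (fun x => hh r a c d .p x * up σ x) (by simp [up]) (by simp [up]) (by simp [up])
  rw [hty, e] at h1
  have e2 : ε * (up σ T.p + t * (be π κ T.p - (cS K * (hh r a c d .p .s * up σ .s) +
      cC K * (hh r a c d .p .c * up σ .c)))) = ε * (t * wp a c σ π K) := by
    simp only [wp, up, be, hh]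
    ring
  rw [e2] at h1
  have h2 : |scr (mat r t a c d σ π κ ε) K ip io / ε - t * wp a c σ π K|
      ≤ 5 * ((r + 4 : ℕ) : ℝ) ^ 2 * (4 * ((r : ℝ) + 1)) ^ 3 * t ^ 2 := by
    have e3 : scr (mat r t a c d σ π κ ε) K ip io / ε - t * wp a c σ π K
        = (scr (mat r t a c d σ π κ ε) K ip io - ε * (t * wp a c σ π K)) / ε := by
      field_simp
    rw [e3, abs_div, abs_of_pos hε, div_le_iff₀ hε]
    linarith
  have h3 := sign_of_est (e := 1 / 4) h.t0 h2 h.small (by norm_num)
  constructor
  · intro hh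
    have := h3.1 hh
    exact (div_pos_iff_of_pos_right hε).mp this
  · intro hh
    have := h3.2 hh
    exact (div_neg_iff.mp this).resolve_left (fun h4 => absurd h4.2 (by linarith)) |>.1

/-- column `o` at `q` -/
theorem sign_col_q (hK : iq ∉ K) :
    (1 / 4 ≤ wq d σ κ K → 0 < scr (mat r t a c d σ π κ ε) K iq io) ∧
      (wq d σ κ K ≤ -(1 / 4) → scr (mat r t a c d σ π κ ε) K iq io < 0) := by
  have h1 := (near h σ π κ ε).col_est ho hε.le (mat_col t a c d σ π κ ε)
    (fun x => abs_up (r := r) hY.hσ (ty x)) (fun x => abs_be (r := r) hY.hπ hY.hκ (ty x))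
    (j := iq) (by simp [iq, io]) hK
  have hty : ty (iq : Fin (r + 4)) = .q := ty_eq_q.mpr rfl
  have e := sum_ty K (fun x => hh r a c d .q x * up σ x) (by simp [up]) (by simp [up]) (by simp [up])
  rw [hty, e] at h1
  have e2 : ε * (up σ T.q + t * (be π κ T.q - (cS K * (hh r a c d .q .s * up σ .s) +
      cC K * (hh r a c d .q .c * up σ .c)))) = ε * (t * wq d σ κ K) := by
    simp only [wq, up, be, hh]
    ring
  rw [e2] at h1
  have h2 : |scr (mat r t a c d σ π κ ε) K iq io / ε - t * wq d σ κ K|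
      ≤ 5 * ((r + 4 : ℕ) : ℝ) ^ 2 * (4 * ((r : ℝ) + 1)) ^ 3 * t ^ 2 := by
    have e3 : scr (mat r t a c d σ π κ ε) K iq io / ε - t * wq d σ κ K
        = (scr (mat r t a c d σ π κ ε) K iq io - ε * (t * wq d σ κ K)) / ε := by
      field_simp
    rw [e3, abs_div, abs_of_pos hε, div_le_iff₀ hε]
    linarith
  have h3 := sign_of_est (e := 1 / 4) h.t0 h2 h.small (by norm_num)
  constructor
  · intro hh
    have := h3.1 hh
    exact (div_pos_iff_of_pos_right hε).mp this
  · intro hh
    have := h3.2 hh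
    exact (div_neg_iff.mp this).resolve_left (fun h4 => absurd h4.2 (by linarith)) |>.1

end signs

/-- the family of sets `K` with a fixed status of the index `j₀`, and the sign conditions that the
parameters `σ, π, κ` of the last column have to satisfy on it -/
def Good (j₀ : Fin (r + 4)) (b : Prop) (a c d σ π κ : ℝ) : Prop :=
  ∀ K : Finset (Fin (r + 4)), io ∉ K → (j₀ ∈ K ↔ b) →
    (ip ≠ j₀ → (1 / 4 ≤ vp K ∧ 1 / 4 ≤ wp a c σ π K) ∨ (vp K ≤ -(1 / 4) ∧ wp a c σ π K ≤ -(1 / 4))) ∧
    (iq ≠ j₀ → (1 / 4 ≤ vq K ∧ 1 / 4 ≤ wq d σ κ K) ∨ (vq K ≤ -(1 / 4) ∧ wq d σ κ K ≤ -(1 / 4)))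

/-- signs in row and column `o` agree -/
theorem row_col_pos {t a c d σ π κ ε : ℝ} (h : Par r t a c d) (hY : ParY r σ π κ) (hε : 0 < ε)
    {j₀ : Fin (r + 4)} {b : Prop} (hG : Good j₀ b a c d σ π κ) (hσ : is ≠ j₀ → 1 / 8 ≤ σ)
    {K : Finset (Fin (r + 4))} (ho : io ∉ K) (hb : j₀ ∈ K ↔ b) {j : Fin (r + 4)} (hj : j ≠ io)
    (hj0 : j ≠ j₀) (hjK : j ∉ K) :
    0 < scr (mat r t a c d σ π κ ε) K io j * scr (mat r t a c d σ π κ ε) K j io := by
  have hG' := hG K ho hb
  cases hty : ty j with
  | p =>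
    have hjp := ty_eq_p.mp hty
    subst hjp
    have h1 := sign_of_est (e := 1 / 4) h.t0 (row_p h σ π κ ε ho hjK) h.small (by norm_num)
    have h2 := sign_col_p h hY hε ho hjK
    rcases hG'.1 hj0 with ⟨g1, g2⟩ | ⟨g1, g2⟩
    · exact mul_pos (h1.1 g1) (h2.1 g2)
    · exact mul_pos_of_neg_of_neg (h1.2 g1) (h2.2 g2)
  | q =>
    have hjp := ty_eq_q.mp hty
    subst hjp
    have h1 := sign_of_est (e := 1 / 4) h.t0 (row_q h σ π κ ε ho hjK) h.small (by norm_num)
    have h2 := sign_col_q h hY hε ho hjK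
    rcases hG'.2 hj0 with ⟨g1, g2⟩ | ⟨g1, g2⟩
    · exact mul_pos (h1.1 g1) (h2.1 g2)
    · exact mul_pos_of_neg_of_neg (h1.2 g1) (h2.2 g2)
  | s =>
    have hjp := ty_eq_s.mp hty
    refine mul_pos (sign_row_heavy h σ π κ ε ho (Or.inl hty) hjK)
      (sign_col_heavy h hY hε ho (Or.inl hty) hjK ?_)
    rw [hty]
    exact hσ (by rw [← hjp]; exact hj0)
  | c =>
    refine mul_pos (sign_row_heavy h σ π κ ε ho (Or.inr hty) hjK)
      (sign_col_heavy h hY hε ho (Or.inr hty) hjK ?_)
    rw [hty]
    simp only [up]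
    norm_num
  | o => exact absurd (ty_eq_o.mp hty) hj

/-- the six cases: for every index and status there are good parameters -/
theorem exists_good (hr : 1 ≤ r) (j₀ : Fin (r + 4)) (hj₀ : j₀ ≠ io) (b : Prop) :
    ∃ σ π κ : ℝ, ParY r σ π κ ∧ (is ≠ j₀ → 1 / 8 ≤ σ) ∧ Good j₀ b (-2) 1 (-2) σ π κ := by
  classical
  have hr' : (1 : ℝ) ≤ r := by exact_mod_cast hr
  have dich : ∀ m : ℕ, (m : ℝ) ≤ 0 ∨ (1 : ℝ) ≤ m := fun m => by
    rcases Nat.eq_zero_or_pos m with h | h
    · left; rw [h]; simp
    · right; exact_mod_cast h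
  have dich2 : ∀ K : Finset (Fin (r + 4)), (cC K : ℝ) ≤ r - 1 ∨ (cC K : ℝ) = r := fun K => by
    rcases Nat.lt_or_ge (cC K) r with h | h
    · left
      have : cC K + 1 ≤ r := h
      have h2 : ((cC K + 1 : ℕ) : ℝ) ≤ r := by exact_mod_cast this
      push_cast at h2
      linarith
    · right
      exact_mod_cast le_antisymm (cC_le K) h
  have cS01 : ∀ K : Finset (Fin (r + 4)), (cS K : ℝ) = 0 ∨ (cS K : ℝ) = 1 := fun K => by
    by_cases h : is ∈ K
    · right; rw [cS_eq_one h]; simp
    · left; rw [cS_eq_zero h]; simp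
  have cC0 : ∀ K : Finset (Fin (r + 4)), (0 : ℝ) ≤ cC K := fun K => Nat.cast_nonneg _
  cases hty : ty j₀ with
  | p =>
    have hj := ty_eq_p.mp hty
    refine ⟨r / 2 - 3 / 8, 0, 1 / 2, ⟨?_, ?_, ?_⟩, fun _ => by linarith, fun K _ _ =>
      ⟨fun hh => absurd hj.symm hh, fun _ => ?_⟩⟩
    · rw [abs_le]; constructor <;> linarith
    · rw [abs_le]; constructor <;> linarith
    · rw [abs_le]; constructor <;> linarith
    · simp only [vq, wq]
      rcases cS01 K with h1 | h1 <;> rw [h1]
      · rcases dich (cC K) with h2 | h2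
        · left; constructor <;> linarith
        · right; constructor <;> linarith
      · rcases dich2 K with h2 | h2
        · left; constructor <;> linarith
        · right; constructor <;> linarith
  | q =>
    have hj := ty_eq_q.mp hty
    refine ⟨2 * r + 1, 1 / 2, 0, ⟨?_, ?_, ?_⟩, fun _ => by linarith, fun K _ _ =>
      ⟨fun _ => ?_, fun hh => absurd hj.symm hh⟩⟩
    · rw [abs_le]; constructor <;> linarith
    · rw [abs_le]; constructor <;> linarith
    · rw [abs_le]; constructor <;> linarith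
    · simp only [vp, wp]
      rcases cS01 K with h1 | h1 <;> rw [h1]
      · left; constructor <;> linarith [cC0 K]
      · right
        have := cC0 K
        rcases dich2 K with h2 | h2 <;> constructor <;> linarith
  | s =>
    have hj := ty_eq_s.mp hty
    by_cases hb : b
    · refine ⟨2 * r + 1, 1 / 2, -3 * r - 5 / 2, ⟨?_, ?_, ?_⟩, fun _ => by linarith, fun K _ hK =>
        ⟨fun _ => ?_, fun _ => ?_⟩⟩
      · rw [abs_le]; constructor <;> linarith
      · rw [abs_le]; constructor <;> linarith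
      · rw [abs_le]; constructor <;> linarith
      · have h1 : (cS K : ℝ) = 1 := by rw [cS_eq_one (by rw [← hj]; exact hK.mpr hb)]; simp
        simp only [vp, wp, h1]
        right
        have := cC0 K
        rcases dich2 K with h2 | h2 <;> constructor <;> linarith
      · have h1 : (cS K : ℝ) = 1 := by rw [cS_eq_one (by rw [← hj]; exact hK.mpr hb)]; simp
        simp only [vq, wq, h1]
        rcases dich2 K with h2 | h2
        · left; constructor <;> linarith
        · right; constructor <;> linarith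
    · refine ⟨2 * r + 1, 1 / 2, 1 / 2, ⟨?_, ?_, ?_⟩, fun _ => by linarith, fun K _ hK =>
        ⟨fun _ => ?_, fun _ => ?_⟩⟩
      · rw [abs_le]; constructor <;> linarith
      · rw [abs_le]; constructor <;> linarith
      · rw [abs_le]; constructor <;> linarith
      · have h1 : (cS K : ℝ) = 0 := by rw [cS_eq_zero (by rw [← hj]; exact fun h => hb (hK.mp h))]; simp
        simp only [vp, wp, h1]
        left; constructor <;> linarith [cC0 K]
      · have h1 : (cS K : ℝ) = 0 := by rw [cS_eq_zero (by rw [← hj]; exact fun h => hb (hK.mp h))]; simp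
        simp only [vq, wq, h1]
        rcases dich (cC K) with h2 | h2
        · left; constructor <;> linarith
        · right; constructor <;> linarith
  | c =>
    by_cases hb : b
    · refine ⟨2 * r, -3 / 2, -3 * r - 1 / 2, ⟨?_, ?_, ?_⟩, fun _ => by linarith, fun K _ hK =>
        ⟨fun _ => ?_, fun _ => ?_⟩⟩
      · rw [abs_le]; constructor <;> linarith
      · rw [abs_le]; constructor <;> linarith
      · rw [abs_le]; constructor <;> linarith
      · have h3 : (1 : ℝ) ≤ cC K := by exact_mod_cast cC_pos hty (hK.mpr hb)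
        simp only [vp, wp]
        rcases cS01 K with h1 | h1 <;> rw [h1]
        · left; constructor <;> linarith
        · right
          rcases dich2 K with h2 | h2 <;> constructor <;> linarith
      · have h3 : (1 : ℝ) ≤ cC K := by exact_mod_cast cC_pos hty (hK.mpr hb)
        simp only [vq, wq]
        rcases cS01 K with h1 | h1 <;> rw [h1]
        · right; constructor <;> linarith
        · rcases dich2 K with h2 | h2
          · left; constructor <;> linarith
          · right; constructor <;> linarith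
    · refine ⟨2 * r + 1, 1 / 2, 1 / 2, ⟨?_, ?_, ?_⟩, fun _ => by linarith, fun K _ hK =>
        ⟨fun _ => ?_, fun _ => ?_⟩⟩
      · rw [abs_le]; constructor <;> linarith
      · rw [abs_le]; constructor <;> linarith
      · rw [abs_le]; constructor <;> linarith
      · simp only [vp, wp]
        rcases cS01 K with h1 | h1 <;> rw [h1]
        · left; constructor <;> linarith [cC0 K]
        · right
          have := cC0 K
          rcases dich2 K with h2 | h2 <;> constructor <;> linarith
      · have h3 : (cC K : ℝ) ≤ r - 1 := by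
          have : cC K + 1 ≤ r := cC_lt hty (fun h => hb (hK.mp h))
          have h2 : ((cC K + 1 : ℕ) : ℝ) ≤ r := by exact_mod_cast this
          push_cast at h2
          linarith
        simp only [vq, wq]
        rcases cS01 K with h1 | h1 <;> rw [h1]
        · rcases dich (cC K) with h2 | h2
          · left; constructor <;> linarith
          · right; constructor <;> linarith
        · left; constructor <;> linarith
  | o => exact absurd (ty_eq_o.mp hty) hj₀

end Pool.Agent.Helper21.GK
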