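import Mathlib
import Pool.Agent.Helper21.GK.Col

/-!
The example is GKK and all its proper parts are limits of strict GKK matrices.
-/

namespace Pool.Agent.Helper21.GK

open Matrix Finset Filter Topology Pool.Agent.Helper5.GKK Pool.Agent.Helper85.SVG
open scoped ComplexOrder

/-! ### continuity -/

theorem continuousAt_inv_sub {n : ℕ} {A : Matrix (Fin n) (Fin n) ℂ} {K : Finset (Fin n)}
    (hK : pm A K ≠ 0) (x y : K) :
    ContinuousAt (fun M : Matrix (Fin n) (Fin n) ℂ =>
      (M.submatrix (Subtype.val : K → Fin n) Subtype.val)⁻¹ x y) A := by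
  have e : (fun M : Matrix (Fin n) (Fin n) ℂ =>
      (M.submatrix (Subtype.val : K → Fin n) Subtype.val)⁻¹ x y)
      = fun M => (pm M K)⁻¹ * (M.submatrix (Subtype.val : K → Fin n) Subtype.val).adjugate x y := by
    funext M
    rw [Matrix.inv_def, Matrix.smul_apply, Ring.inverse_eq_inv', smul_eq_mul]
    rfl
  rw [e]
  have h1 : Continuous fun M : Matrix (Fin n) (Fin n) ℂ =>
      (M.submatrix (Subtype.val : K → Fin n) (Subtype.val : K → Fin n)) :=
    continuous_id.matrix_submatrix _ _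
  have h2 : Continuous fun M : Matrix (Fin n) (Fin n) ℂ =>
      (M.submatrix (Subtype.val : K → Fin n) (Subtype.val : K → Fin n)).adjugate := h1.matrix_adjugate
  have h3 : Continuous fun M : Matrix (Fin n) (Fin n) ℂ =>
      (M.submatrix (Subtype.val : K → Fin n) Subtype.val).adjugate x y := h2.matrix_elem x y
  exact ((Pool.Agent.Helper5.GKK.continuous_pm K).continuousAt.inv₀ hK).mul h3.continuousAt

theorem continuousAt_sc {n : ℕ} {A : Matrix (Fin n) (Fin n) ℂ} {K : Finset (Fin n)}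
    (hK : pm A K ≠ 0) (i j : Fin n) :
    ContinuousAt (fun M : Matrix (Fin n) (Fin n) ℂ => sc M K i j) A := by
  unfold sc
  have hc : ∀ i j, ContinuousAt (fun M : Matrix (Fin n) (Fin n) ℂ => M i j) A := fun i j =>
    (continuous_apply_apply i j).continuousAt
  refine (hc i j).sub ?_
  refine tendsto_finsetSum _ fun x _ => tendsto_finsetSum _ fun y _ => ?_
  exact ((hc i x).mul (continuousAt_inv_sub hK x y)).mul (hc y j)

theorem continuousAt_schurPart {n : ℕ} {A : Matrix (Fin n) (Fin n) ℂ} {K : Finset (Fin n)}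
    (hK : pm A K ≠ 0) {m : ℕ} (e : Fin m → Fin n) :
    ContinuousAt (fun M : Matrix (Fin n) (Fin n) ℂ => schurPart M K e) A := by
  refine continuousAt_pi.mpr fun i => continuousAt_pi.mpr fun j => ?_
  exact continuousAt_sc hK (e i) (e j)

variable {r : ℕ}

theorem continuous_mat (t a c d σ π κ : ℝ) : Continuous fun ε : ℝ => mat r t a c d σ π κ ε := by
  refine continuous_matrix fun i j => ?_
  simp only [mat, of_apply]
  split_ifs
  · exact continuous_const
  · exact continuous_const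
  · fun_prop
  · exact continuous_const

theorem mat_zero (t a c d σ π κ : ℝ) : mat r t a c d σ π κ 0 = mat r t a c d 0 0 0 0 := by
  ext i j
  simp only [mat, of_apply]
  split_ifs <;> simp

theorem continuous_cx {n : ℕ} : Continuous (cx (n := n)) :=
  continuous_id.matrix_map Complex.continuous_ofReal

theorem continuous_pmr {n : ℕ} (S : Finset (Fin n)) : Continuous fun M : Matrix (Fin n) (Fin n) ℝ => pmr M S :=
  Continuous.matrix_det (continuous_id.matrix_submatrix _ _)

theorem continuous_ppr {n : ℕ} (K : Finset (Fin n)) (i j : Fin n) :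
    Continuous fun M : Matrix (Fin n) (Fin n) ℝ => ppr M K i j :=
  Continuous.matrix_det (continuous_id.matrix_submatrix _ _)

/-! ### the matrix with vanishing last column -/

section zero

variable {t a c d : ℝ} (h : Par r t a c d)
include h

theorem sc_col_zero {K : Finset (Fin (r + 4))} (ho : io ∉ K) (j : Fin (r + 4)) (hj : j ≠ io) :
    scr (mat r t a c d 0 0 0 0) K j io = 0 := by
  have h1 := (near h 0 0 0 0).pmr_pos K ho
  have h2 := sc_cx (M := mat r t a c d 0 0 0 0) h1.ne' j io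
  have h3 : sc (cx (mat r t a c d 0 0 0 0)) K j io = 0 := by
    unfold sc
    have e : ∀ y, y ≠ io → cx (mat r t a c d 0 0 0 0) y io = 0 := by
      intro y hy
      rw [cx_apply, mat_col t a c d 0 0 0 0 y hy]
      simp
    rw [e j hj]
    have : ∑ x : K, ∑ y : K, cx (mat r t a c d 0 0 0 0) j x *
        ((cx (mat r t a c d 0 0 0 0)).submatrix (Subtype.val : K → Fin (r + 4)) Subtype.val)⁻¹ x y *
        cx (mat r t a c d 0 0 0 0) y io = 0 := by
      refine Finset.sum_eq_zero fun x _ => Finset.sum_eq_zero fun y _ => ?_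
      rw [e y (fun e => ho (e ▸ y.2)), mul_zero]
    rw [this, sub_zero]
  rw [h3] at h2
  exact_mod_cast h2.symm

theorem sc_io_io {K : Finset (Fin (r + 4))} (ho : io ∉ K) :
    scr (mat r t a c d 0 0 0 0) K io io = 1 := by
  have h1 := (near h 0 0 0 0).pmr_pos K ho
  have h2 := sc_cx (M := mat r t a c d 0 0 0 0) h1.ne' io io
  have h3 : sc (cx (mat r t a c d 0 0 0 0)) K io io = 1 := by
    unfold sc
    have e : ∀ y, y ≠ io → cx (mat r t a c d 0 0 0 0) y io = 0 := by
      intro y hy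
      rw [cx_apply, mat_col t a c d 0 0 0 0 y hy]
      simp
    have : ∑ x : K, ∑ y : K, cx (mat r t a c d 0 0 0 0) io x *
        ((cx (mat r t a c d 0 0 0 0)).submatrix (Subtype.val : K → Fin (r + 4)) Subtype.val)⁻¹ x y *
        cx (mat r t a c d 0 0 0 0) y io = 0 := by
      refine Finset.sum_eq_zero fun x _ => Finset.sum_eq_zero fun y _ => ?_
      rw [e y (fun e => ho (e ▸ y.2)), mul_zero]
    rw [this, sub_zero, cx_apply]
    simp [mat]
  rw [h3] at h2
  exact_mod_cast h2.symm

theorem pmr_zero_pos (S : Finset (Fin (r + 4))) : 0 < pmr (mat r t a c d 0 0 0 0) S := by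
  by_cases ho : io ∈ S
  · have h1 := (near h 0 0 0 0).pmr_pos (S.erase io) (notMem_erase io S)
    rw [← insert_erase ho, pmr_insert h1.ne' (notMem_erase io S), sc_io_io h (notMem_erase io S), mul_one]
    exact h1
  · exact (near h 0 0 0 0).pmr_pos S ho

theorem scr_insert_io {K : Finset (Fin (r + 4))} (ho : io ∉ K) (i j : Fin (r + 4)) (hi : i ≠ io) :
    scr (mat r t a c d 0 0 0 0) (insert io K) i j = scr (mat r t a c d 0 0 0 0) K i j := by
  rw [scr_insert (pmr_zero_pos h) ho, sc_col_zero h ho i hi]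
  simp

theorem hh_symm (x y : T) : (0 < hh r a c d x y ∧ 0 < hh r a c d y x) ∨
    (hh r a c d x y < 0 ∧ hh r a c d y x < 0) := by
  have hr : (1 : ℝ) ≤ r := by exact_mod_cast h.r1
  obtain ⟨h1, h2⟩ := h.ha
  obtain ⟨h3, h4⟩ := h.hc
  obtain ⟨h5, h6⟩ := h.hd
  cases x <;> cases y <;> simp only [hh] <;>
    first | (left; constructor <;> linarith) | (right; constructor <;> linarith)

theorem block_pos (σ π κ ε : ℝ) {K : Finset (Fin (r + 4))} (ho : io ∉ K) {i j : Fin (r + 4)}
    (hi : i ≠ io) (hj : j ≠ io) (hij : i ≠ j) (hiK : i ∉ K) (hjK : j ∉ K) :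
    0 < scr (mat r t a c d σ π κ ε) K i j * scr (mat r t a c d σ π κ ε) K j i := by
  have h1 := sign_block h σ π κ ε ho hi hj hij hiK hjK
  have h2 := sign_block h σ π κ ε ho hj hi hij.symm hjK hiK
  rcases hh_symm h (ty i) (ty j) with ⟨g1, g2⟩ | ⟨g1, g2⟩
  · exact mul_pos (h1.1 g1) (h2.1 g2)
  · exact mul_pos_of_neg_of_neg (h1.2 g1) (h2.2 g2)

/-- `o ∈ K`, `o ∉ {i, j}` -/
theorem block_pos' {K : Finset (Fin (r + 4))} (ho : io ∈ K) {i j : Fin (r + 4)}
    (hij : i ≠ j) (hiK : i ∉ K) (hjK : j ∉ K) :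
    0 < scr (mat r t a c d 0 0 0 0) K i j * scr (mat r t a c d 0 0 0 0) K j i := by
  have hi : i ≠ io := fun e => hiK (e ▸ ho)
  have hj : j ≠ io := fun e => hjK (e ▸ ho)
  rw [← insert_erase ho, scr_insert_io h (notMem_erase io K) i j hi,
    scr_insert_io h (notMem_erase io K) j i hj]
  exact block_pos h 0 0 0 0 (notMem_erase io K) hi hj hij (fun hh => hiK (mem_of_mem_erase hh))
    (fun hh => hjK (mem_of_mem_erase hh))

theorem isGKK_mat : IsGKK (cx (mat r t a c d 0 0 0 0)) := by
  rw [isGKK_iff]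
  refine ⟨fun S => pm_cx_pos.mpr (pmr_zero_pos h S), fun K i j hi hj hij => ?_⟩
  refine ap_cx_nonneg (pmr_zero_pos h) hi hj hij ?_
  by_cases ho : io ∈ K
  · exact (block_pos' h ho hij hi hj).le
  · by_cases hio : i = io
    · subst hio
      rw [sc_col_zero h ho j hij.symm, mul_zero]
    · by_cases hjo : j = io
      · subst hjo
        rw [sc_col_zero h ho i hij, zero_mul]
      · exact (block_pos h 0 0 0 0 ho hio hjo hij hi hj).le

end zero

/-- all proper parts of the example are limits of strict GKK matrices -/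
theorem part_mem_closure {t : ℝ} (h : Par r t (-2) 1 (-2)) (K : Finset (Fin (r + 4))) {m : ℕ}
    (hm : m < r + 4) (e : Fin m → Fin (r + 4)) (he : Function.Injective e) (heK : ∀ i, e i ∉ K) :
    schurPart (cx (mat r t (-2) 1 (-2) 0 0 0 0)) K e
      ∈ closure {B : Matrix (Fin m) (Fin m) ℂ | IsStrictGKK B} := by
  classical
  -- an index outside the range of `e`
  obtain ⟨j₀, hj₀⟩ : ∃ j₀, ∀ i, e i ≠ j₀ := by
    by_contra hcon
    push Not at hcon
    have hs : Function.Surjective e := fun j => hcon j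
    have := Fintype.card_le_of_surjective e hs
    rw [Fintype.card_fin, Fintype.card_fin] at this
    omega
  have hmem : ∀ S : Finset (Fin m), j₀ ∈ K ∪ S.image e ↔ j₀ ∈ K := by
    intro S
    rw [mem_union, mem_image]
    exact ⟨fun hh => hh.resolve_right fun ⟨i, _, hi⟩ => hj₀ i hi, fun hh => Or.inl hh⟩
  have hnot : ∀ (S : Finset (Fin m)) (i : Fin m), i ∉ S → e i ∉ K ∪ S.image e := by
    intro S i hi hh
    rw [mem_union, mem_image] at hh
    rcases hh with hh | ⟨i', hi', hh⟩
    · exact heK i hh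
    · exact hi ((he hh) ▸ hi')
  by_cases hjo : j₀ = io
  · refine subset_closure ?_
    refine isStrictGKK_schurPart (fun S => pm_cx_pos.mpr (pmr_zero_pos h S)) he heK
      fun S i j hi hj hij => ?_
    rw [ap_cx_pos (pmr_zero_pos h) (hnot S i hi) (hnot S j hj) (fun hh => hij (he hh))]
    by_cases ho : io ∈ K ∪ S.image e
    · exact block_pos' h ho (fun hh => hij (he hh)) (hnot S i hi) (hnot S j hj)
    · exact block_pos h 0 0 0 0 ho (hjo ▸ hj₀ i) (hjo ▸ hj₀ j) (fun hh => hij (he hh)) (hnot S i hi)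
        (hnot S j hj)
  obtain ⟨σ, π, κ, hY, hσ, hG⟩ := exists_good h.r1 j₀ hjo (j₀ ∈ K)
  set f : ℝ → Matrix (Fin (r + 4)) (Fin (r + 4)) ℝ := fun ε => mat r t (-2) 1 (-2) σ π κ ε with hf
  have hf0 : f 0 = mat r t (-2) 1 (-2) 0 0 0 0 := mat_zero _ _ _ _ _ _ _
  have hfc : Continuous f := continuous_mat _ _ _ _ _ _ _
  have e1 : ∀ᶠ ε : ℝ in 𝓝[>] (0 : ℝ), ∀ S, 0 < pmr (f ε) S := by
    rw [eventually_all]
    intro S
    have hc : ContinuousAt (fun ε => pmr (f ε) S) 0 := ((continuous_pmr S).comp hfc).continuousAt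
    have h1 : 0 < pmr (f 0) S := by rw [hf0]; exact pmr_zero_pos h S
    exact (hc.tendsto.eventually_const_lt h1).filter_mono nhdsWithin_le_nhds
  have e2 : ∀ᶠ ε : ℝ in 𝓝[>] (0 : ℝ), ∀ (K : Finset (Fin (r + 4))) (i j : Fin (r + 4)), io ∈ K →
      i ≠ j → i ∉ K → j ∉ K → 0 < ppr (f ε) K i j * ppr (f ε) K j i := by
    simp only [eventually_all]
    intro K i j ho hij hi hj
    have hc : ContinuousAt (fun ε => ppr (f ε) K i j * ppr (f ε) K j i) 0 :=
      (((continuous_ppr K i j).comp hfc).mul ((continuous_ppr K j i).comp hfc)).continuousAt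
    have h1 : 0 < ppr (f 0) K i j * ppr (f 0) K j i := by
      rw [hf0, ppr_eq (pmr_zero_pos h K).ne', ppr_eq (pmr_zero_pos h K).ne']
      have := mul_pos (pow_pos (pmr_zero_pos h K) 2) (block_pos' h ho hij hi hj)
      linarith
    exact (hc.tendsto.eventually_const_lt h1).filter_mono nhdsWithin_le_nhds
  have ht : Tendsto (fun ε => schurPart (cx (f ε)) K e) (𝓝[>] (0 : ℝ))
      (𝓝 (schurPart (cx (mat r t (-2) 1 (-2) 0 0 0 0)) K e)) := by
    have hK : pm (cx (f 0)) K ≠ 0 := by
      rw [hf0]; exact (pm_cx_pos.mpr (pmr_zero_pos h K)).ne'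
    have h1 : ContinuousAt (fun ε => cx (f ε)) 0 := (continuous_cx.comp hfc).continuousAt
    have h2 : ContinuousAt (fun ε => schurPart (cx (f ε)) K e) 0 :=
      ContinuousAt.comp (f := fun ε => cx (f ε)) (g := fun M => schurPart M K e)
        (continuousAt_schurPart hK e) h1
    have h3 := h2.tendsto
    rw [hf0] at h3
    exact h3.mono_left nhdsWithin_le_nhds
  refine mem_closure_of_tendsto ht ?_
  filter_upwards [e1, e2, self_mem_nhdsWithin] with ε h1 h2 h3
  have hε : 0 < ε := h3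
  refine isStrictGKK_schurPart (fun S => pm_cx_pos.mpr (h1 S)) he heK fun S i j hi hj hij => ?_
  have hne : e i ≠ e j := fun hh => hij (he hh)
  rw [ap_cx_pos h1 (hnot S i hi) (hnot S j hj) hne]
  by_cases ho : io ∈ K ∪ S.image e
  · have h4 := h2 _ _ _ ho hne (hnot S i hi) (hnot S j hj)
    rw [ppr_eq (h1 _).ne', ppr_eq (h1 _).ne'] at h4
    have h5 : 0 < pmr (f ε) (K ∪ S.image e) ^ 2 := pow_pos (h1 _) 2
    have h6 : pmr (f ε) (K ∪ S.image e) * scr (f ε) (K ∪ S.image e) (e i) (e j) *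
        (pmr (f ε) (K ∪ S.image e) * scr (f ε) (K ∪ S.image e) (e j) (e i))
        = pmr (f ε) (K ∪ S.image e) ^ 2 * (scr (f ε) (K ∪ S.image e) (e i) (e j) *
          scr (f ε) (K ∪ S.image e) (e j) (e i)) := by ring
    rw [h6] at h4
    exact (pos_iff_pos_of_mul_pos h4).mp h5
  · by_cases hi0 : e i = io
    · rw [hi0]
      exact row_col_pos h hY hε hG hσ ho (hmem S) (fun hh => hne (hi0.trans hh.symm)) (hj₀ j) (hnot S j hj)
    · by_cases hj0 : e j = io
      · rw [hj0, mul_comm]
        exact row_col_pos h hY hε hG hσ ho (hmem S) hi0 (hj₀ i) (hnot S i hi)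
      · exact block_pos h σ π κ ε ho hi0 hj0 hne (hnot S i hi) (hnot S j hj)

end Pool.Agent.Helper21.GK
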