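import Mathlib
import Pool.Agent.Helper5.GKK.Counter
import Pool.Agent.Helper21.GK.Parts

/-!
The example is not a limit of strict GKK matrices.
-/

namespace Pool.Agent.Helper21.GK

open Matrix Finset Filter Topology Pool.Agent.Helper5.GKK Pool.Agent.Helper85.SVG
open scoped ComplexOrder

/-- the coefficients of the last column in the Schur complement -/
noncomputable def wfun {n : ℕ} (K : Finset (Fin n)) (X : Matrix (Fin n) (Fin n) ℂ) (i : Fin n) (y : K) : ℂ :=
  ∑ x : K, X i x * (X.submatrix (Subtype.val : K → Fin n) Subtype.val)⁻¹ x y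

theorem sc_eq_wfun {n : ℕ} (K : Finset (Fin n)) (X : Matrix (Fin n) (Fin n) ℂ) (i j : Fin n) :
    sc X K i j = X i j - ∑ y : K, wfun K X i y * X y j := by
  unfold sc wfun
  rw [Finset.sum_comm]
  congr 1
  refine Finset.sum_congr rfl fun y _ => ?_
  rw [Finset.sum_mul]

theorem continuousAt_wfun {n : ℕ} {K : Finset (Fin n)} {A : Matrix (Fin n) (Fin n) ℂ} (hK : pm A K ≠ 0)
    (i : Fin n) (y : K) : ContinuousAt (fun X : Matrix (Fin n) (Fin n) ℂ => wfun K X i y) A := by
  unfold wfun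
  refine tendsto_finsetSum _ fun x _ => ?_
  exact (continuous_apply_apply i x.val).continuousAt.mul (continuousAt_inv_sub hK x y)

theorem wfun_close {n : ℕ} {M : Matrix (Fin n) (Fin n) ℝ} {o : Fin n} {H : Fin n → Fin n → ℝ} {t R : ℝ}
    (h : Near M o H t R) {K : Finset (Fin n)} (ho : o ∉ K) {i : Fin n} (hi : i ≠ o) (hiK : i ∉ K) (y : K) :
    ‖wfun K (cx M) i y - cx M i y‖ ≤ n * (t * R) * (2 * (t * R)) := by
  have hK := h.pmr_pos K ho
  have hK' : pm (cx M) K ≠ 0 := by rw [pm_cx]; exact_mod_cast hK.ne'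
  set Q := (cx M).submatrix (Subtype.val : K → Fin n) Subtype.val with hQ
  have hu : IsUnit Q.det := isUnit_iff_ne_zero.mpr hK'
  have hQR : Q * Q⁻¹ = 1 := Matrix.mul_nonsing_inv Q hu
  have h1 := inv_close Q Q⁻¹ hQR (η := t * R) (fun x y => by
    have := h.close ho x.1 x.2 y.1 y.2
    have e : Q x y - (1 : Matrix K K ℂ) x y = ((M x y - (if (x : Fin n) = y then 1 else 0) : ℝ) : ℂ) := by
      rw [Matrix.one_apply, hQ, submatrix_apply, cx_apply]
      simp only [Subtype.ext_iff]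
      split_ifs <;> push_cast <;> rfl
    rw [e, Complex.norm_real]
    exact this) (by rw [Fintype.card_coe]; exact h.card_small K)
  have e1 : wfun K (cx M) i y - cx M i y = ∑ x : K, cx M i x * (Q⁻¹ x y - (1 : Matrix K K ℂ) x y) := by
    simp only [mul_sub, Finset.sum_sub_distrib]
    rw [wfun, ← hQ]
    congr 1
    simp [Matrix.one_apply]
  rw [e1]
  have htR : 0 ≤ t * R := mul_nonneg h.t0.le (by linarith [h.R1])
  calc ‖∑ x : K, cx M i x * (Q⁻¹ x y - (1 : Matrix K K ℂ) x y)‖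
      ≤ ∑ x : K, |M i x| * (2 * (t * R)) := by
        refine (norm_sum_le _ _).trans (Finset.sum_le_sum fun x _ => ?_)
        rw [norm_mul, cx_apply, Complex.norm_real, Real.norm_eq_abs]
        exact mul_le_mul_of_nonneg_left (h1 x y) (abs_nonneg _)
    _ = (∑ x ∈ K, |M i x|) * (2 * (t * R)) := by
        rw [← Finset.sum_mul, Finset.sum_coe_sort K (fun x => |M i x|)]
    _ ≤ n * (t * R) * (2 * (t * R)) := mul_le_mul_of_nonneg_right (h.row_sum ho hi hiK) (by positivity)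

theorem pos_of_pos_mul {a b : ℂ} (ha : 0 < a) (hab : 0 < a * b) : 0 < b := by
  obtain ⟨h1, h2⟩ := Complex.pos_iff.mp ha
  obtain ⟨h3, h4⟩ := Complex.pos_iff.mp hab
  rw [Complex.mul_re, ← h2, zero_mul, sub_zero] at h3
  rw [Complex.mul_im, ← h2, zero_mul, add_zero] at h4
  refine Complex.pos_iff.mpr ⟨(pos_iff_pos_of_mul_pos h3).mp h1, ?_⟩
  rcases mul_eq_zero.mp h4.symm with h | h
  · exact absurd h h1.ne'
  · exact h.symm

/-- the almost principal product through Schur complements -/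
theorem sc_mul_pos {n : ℕ} {X : Matrix (Fin n) (Fin n) ℂ} (hX : IsStrictGKK X) {K : Finset (Fin n)}
    {i j : Fin n} (hi : i ∉ K) (hj : j ∉ K) (hij : i ≠ j) : 0 < sc X K i j * sc X K j i := by
  rw [isStrictGKK_iff] at hX
  have h1 := hX.2 K i j hi hj hij
  have hK := hX.1 K
  rw [ap_eq_pp X hX.1 hi hj hij, pp_eq_sc X K hK.ne', pp_eq_sc X K hK.ne'] at h1
  have h2 : 0 < (pm X K * pm X K) * (sc X K i j * sc X K j i) := by
    have e : (pm X K * pm X K) * (sc X K i j * sc X K j i)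
      = pm X K * sc X K i j * (pm X K * sc X K j i) := by ring
    rw [e]; exact h1
  exact pos_of_pos_mul (mul_pos hK hK) h2

variable {r : ℕ}

/-- the set of the indices of type `s` and `c` -/
def K₀ (r : ℕ) : Finset (Fin (r + 4)) := univ.filter fun x => ty x = .s ∨ ty x = .c

theorem mem_K₀ {x : Fin (r + 4)} : x ∈ K₀ r ↔ ty x = .s ∨ ty x = .c := by
  simp [K₀]

theorem io_notMem : io ∉ K₀ r := by
  rw [mem_K₀, ty_eq_o.mpr rfl]; simp
theorem ip_notMem : ip ∉ K₀ r := by
  rw [mem_K₀, ty_eq_p.mpr rfl]; simp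
theorem iq_notMem : iq ∉ K₀ r := by
  rw [mem_K₀, ty_eq_q.mpr rfl]; simp

theorem cS_K₀ : cS (K₀ r) = 1 := cS_eq_one (mem_K₀.mpr (Or.inl (ty_eq_s.mpr rfl)))

theorem cC_K₀ : cC (K₀ r) = r := by
  have : (K₀ r).filter (fun x => ty x = .c) = univ.filter fun x : Fin (r + 4) => ty x = .c := by
    ext x
    simp only [mem_filter, mem_K₀, mem_univ, true_and]
    exact ⟨fun h => h.2, fun h => ⟨Or.inr h, h⟩⟩
  rw [cC, this, card_C]

theorem not_mem {t : ℝ} (h : Par r t (-2) 1 (-2)) :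
    cx (mat r t (-2) 1 (-2) 0 0 0 0) ∉
      closure {B : Matrix (Fin (r + 4)) (Fin (r + 4)) ℂ | IsStrictGKK B} := by
  intro hA
  rw [mem_closure_iff_frequently] at hA
  set M : Matrix (Fin (r + 4)) (Fin (r + 4)) ℝ := mat r t (-2) 1 (-2) 0 0 0 0 with hM
  set A := cx M with hAdef
  have hN : Near M io (fun i j => hh r (-2) 1 (-2) (ty i) (ty j)) t (4 * ((r : ℝ) + 1)) := near h 0 0 0 0
  have ht := h.t0
  have hr : (1 : ℝ) ≤ r := by exact_mod_cast h.r1
  have hc : ∀ i j, ContinuousAt (fun X : Matrix (Fin (r + 4)) (Fin (r + 4)) ℂ => X i j) A := fun i j =>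
    (continuous_apply_apply i j).continuousAt
  have hK : pm A (K₀ r) ≠ 0 := (pm_cx_pos.mpr (pmr_zero_pos h _)).ne'
  have hpo : (ip : Fin (r + 4)) ≠ io := by simp [ip, io]
  have hqo : (iq : Fin (r + 4)) ≠ io := by simp [iq, io]
  -- entries of `A`
  have hop : A io ip = ((t / 2 : ℝ) : ℂ) := by
    rw [hAdef, cx_apply, hM, mat_row _ _ _ _ _ _ _ _ ip hpo, ty_eq_p.mpr rfl]
    congr 1
    simp only [xi, al]
    ring
  have hoq : A io iq = ((t / 4 : ℝ) : ℂ) := by
    rw [hAdef, cx_apply, hM, mat_row _ _ _ _ _ _ _ _ iq hqo, ty_eq_q.mpr rfl]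
    congr 1
    simp only [xi, al]
    ring
  have hoy : ∀ y : K₀ r, A io y = 1 := by
    intro y
    have hy := mem_K₀.mp y.2
    have hyo : (y : Fin (r + 4)) ≠ io := fun e => io_notMem (e ▸ y.2)
    rw [hAdef, cx_apply, hM, mat_row _ _ _ _ _ _ _ _ _ hyo]
    rcases hy with hy | hy <;> rw [hy] <;> simp [xi, al]
  -- the four eventual inequalities
  have e1 : ∀ᶠ X in 𝓝 A, 0 < ((X io ip)⁻¹).re := by
    have hcont : ContinuousAt (fun X : Matrix (Fin (r + 4)) (Fin (r + 4)) ℂ => ((X io ip)⁻¹).re) A := by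
      refine Complex.continuous_re.continuousAt.comp ((hc io ip).inv₀ ?_)
      rw [hop]; exact_mod_cast (by positivity : t / 2 ≠ 0)
    refine hcont.tendsto.eventually_const_lt ?_
    rw [hop, ← Complex.ofReal_inv, Complex.ofReal_re]
    positivity
  have e2 : ∀ᶠ X in 𝓝 A, 0 < ((X io iq)⁻¹).re := by
    have hcont : ContinuousAt (fun X : Matrix (Fin (r + 4)) (Fin (r + 4)) ℂ => ((X io iq)⁻¹).re) A := by
      refine Complex.continuous_re.continuousAt.comp ((hc io iq).inv₀ ?_)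
      rw [hoq]; exact_mod_cast (by positivity : t / 4 ≠ 0)
    refine hcont.tendsto.eventually_const_lt ?_
    rw [hoq, ← Complex.ofReal_inv, Complex.ofReal_re]
    positivity
  have e3 : ∀ᶠ X in 𝓝 A, ∀ y : K₀ r,
      0 < (-(wfun (K₀ r) X ip y + wfun (K₀ r) X iq y) / X io y).re := by
    rw [eventually_all]
    intro y
    have hcont : ContinuousAt (fun X : Matrix (Fin (r + 4)) (Fin (r + 4)) ℂ =>
        (-(wfun (K₀ r) X ip y + wfun (K₀ r) X iq y) / X io y).re) A := by
      refine Complex.continuous_re.continuousAt.comp (ContinuousAt.div ?_ (hc io y) ?_)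
      · exact ((continuousAt_wfun hK ip y).add (continuousAt_wfun hK iq y)).neg
      · rw [hoy]; exact one_ne_zero
    refine hcont.tendsto.eventually_const_lt ?_
    have hyo : (y : Fin (r + 4)) ≠ io := fun e => io_notMem (e ▸ y.2)
    have hyp : (ip : Fin (r + 4)) ≠ y := fun e => ip_notMem (e ▸ y.2)
    have hyq : (iq : Fin (r + 4)) ≠ y := fun e => iq_notMem (e ▸ y.2)
    have c1 := wfun_close hN io_notMem hpo ip_notMem y
    have c2 := wfun_close hN io_notMem hqo iq_notMem y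
    have v1 : M ip y + M iq y = -t := by
      rw [hN.off ip y hpo hyo hyp, hN.off iq y hqo hyo hyq, ty_eq_p.mpr rfl, ty_eq_q.mpr rfl]
      rcases mem_K₀.mp y.2 with hy | hy <;> rw [hy] <;> simp only [hh] <;> ring
    have v2 : ‖(wfun (K₀ r) A ip y + wfun (K₀ r) A iq y) - ((-t : ℝ) : ℂ)‖
        ≤ 2 * (((r + 4 : ℕ) : ℝ) * (t * (4 * ((r : ℝ) + 1))) * (2 * (t * (4 * ((r : ℝ) + 1))))) := by
      rw [← v1]
      have : (wfun (K₀ r) A ip y + wfun (K₀ r) A iq y) - ((M ip y + M iq y : ℝ) : ℂ)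
          = (wfun (K₀ r) A ip y - A ip y) + (wfun (K₀ r) A iq y - A iq y) := by
        rw [hAdef, cx_apply, cx_apply]; push_cast; ring
      rw [this]
      refine (norm_add_le _ _).trans ?_
      linarith
    have v3 : 2 * (((r + 4 : ℕ) : ℝ) * (t * (4 * ((r : ℝ) + 1))) * (2 * (t * (4 * ((r : ℝ) + 1)))))
        ≤ t / 8 := by
      have hs := h.small
      set N : ℝ := ((r + 4 : ℕ) : ℝ) with hNN
      set R : ℝ := 4 * ((r : ℝ) + 1) with hR
      have n1 : 1 ≤ N := by rw [hNN]; push_cast; linarith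
      have R1 : 1 ≤ R := by rw [hR]; linarith
      have e3 : N * R ^ 2 ≤ N ^ 2 * R ^ 3 := by
        have a1 : N ≤ N ^ 2 := by nlinarith
        have a2 : R ^ 2 ≤ R ^ 3 := by
          have : 0 ≤ R ^ 2 := by positivity
          nlinarith
        exact mul_le_mul a1 a2 (by positivity) (by positivity)
      have e4 : 2 * (N * (t * R) * (2 * (t * R))) = 4 * (N * R ^ 2) * t * t := by ring
      rw [e4]
      have e5 : 4 * (N * R ^ 2) * t ≤ 1 / 8 := by
        have : 4 * (N * R ^ 2) * t ≤ 5 * (N ^ 2 * R ^ 3) * t :=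
          mul_le_mul_of_nonneg_right (by nlinarith [e3, (by positivity : (0:ℝ) ≤ N * R ^ 2)]) ht.le
        linarith
      nlinarith
    rw [hoy y, div_one, Complex.neg_re]
    have v4 := (Complex.abs_re_le_norm _).trans (v2.trans v3)
    rw [Complex.sub_re, Complex.ofReal_re] at v4
    have := abs_le.mp v4
    linarith [this.2]
  have e4 : ∀ᶠ X in 𝓝 A, ((sc X (K₀ r) io ip)⁻¹).re < 0 := by
    have hv : scr M (K₀ r) io ip < 0 := by
      refine (sign_of_est (e := 1 / 4) ht (row_p h 0 0 0 0 io_notMem ip_notMem) h.small (by norm_num)).2 ?_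
      rw [vp, cS_K₀, cC_K₀]; push_cast; linarith
    have hsc : sc A (K₀ r) io ip = ((scr M (K₀ r) io ip : ℝ) : ℂ) := sc_cx (pmr_zero_pos h _).ne' _ _
    have hcont : ContinuousAt (fun X : Matrix (Fin (r + 4)) (Fin (r + 4)) ℂ =>
        ((sc X (K₀ r) io ip)⁻¹).re) A := by
      refine Complex.continuous_re.continuousAt.comp ((continuousAt_sc hK io ip).inv₀ ?_)
      rw [hsc]; exact_mod_cast hv.ne
    refine hcont.tendsto.eventually_lt_const ?_
    rw [hsc, ← Complex.ofReal_inv, Complex.ofReal_re]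
    exact inv_lt_zero.mpr hv
  have e5 : ∀ᶠ X in 𝓝 A, ((sc X (K₀ r) io iq)⁻¹).re < 0 := by
    have hv : scr M (K₀ r) io iq < 0 := by
      refine (sign_of_est (e := 1 / 4) ht (row_q h 0 0 0 0 io_notMem iq_notMem) h.small (by norm_num)).2 ?_
      rw [vq, cS_K₀, cC_K₀]; push_cast; linarith
    have hsc : sc A (K₀ r) io iq = ((scr M (K₀ r) io iq : ℝ) : ℂ) := sc_cx (pmr_zero_pos h _).ne' _ _
    have hcont : ContinuousAt (fun X : Matrix (Fin (r + 4)) (Fin (r + 4)) ℂ =>
        ((sc X (K₀ r) io iq)⁻¹).re) A := by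
      refine Complex.continuous_re.continuousAt.comp ((continuousAt_sc hK io iq).inv₀ ?_)
      rw [hsc]; exact_mod_cast hv.ne
    refine hcont.tendsto.eventually_lt_const ?_
    rw [hsc, ← Complex.ofReal_inv, Complex.ofReal_re]
    exact inv_lt_zero.mpr hv
  obtain ⟨X, hX, f1, f2, f3, f4, f5⟩ :=
    (hA.and_eventually (e1.and (e2.and (e3.and (e4.and e5))))).exists
  have hX' : IsStrictGKK X := hX
  -- positive products
  have s0 : ∀ j, j ≠ io → 0 < X j io * X io j := by
    intro j hj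
    have := sc_mul_pos hX' (K := ∅) (i := j) (j := io) (by simp) (by simp) hj
    rwa [sc_empty, sc_empty] at this
  have sp := sc_mul_pos hX' (K := K₀ r) ip_notMem io_notMem hpo
  have sq := sc_mul_pos hX' (K := K₀ r) iq_notMem io_notMem hqo
  have ne : ∀ j, j ≠ io → X io j ≠ 0 := fun j hj => right_ne_zero_of_mul (s0 j hj).ne'
  have np : sc X (K₀ r) io ip ≠ 0 := right_ne_zero_of_mul sp.ne'
  have nq : sc X (K₀ r) io iq ≠ 0 := right_ne_zero_of_mul sq.ne'
  have key : (X ip io * X io ip) * (X io ip)⁻¹ + (X iq io * X io iq) * (X io iq)⁻¹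
      + ∑ y : K₀ r, (X y io * X io y) * (-(wfun (K₀ r) X ip y + wfun (K₀ r) X iq y) / X io y)
      = (sc X (K₀ r) ip io * sc X (K₀ r) io ip) * (sc X (K₀ r) io ip)⁻¹
        + (sc X (K₀ r) iq io * sc X (K₀ r) io iq) * (sc X (K₀ r) io iq)⁻¹ := by
    rw [mul_inv_cancel_right₀ np, mul_inv_cancel_right₀ nq, mul_inv_cancel_right₀ (ne ip hpo),
      mul_inv_cancel_right₀ (ne iq hqo), sc_eq_wfun, sc_eq_wfun (K₀ r) X iq io]
    have e : ∑ y : K₀ r, (X y io * X io y) * (-(wfun (K₀ r) X ip y + wfun (K₀ r) X iq y) / X io y)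
        = -∑ y : K₀ r, wfun (K₀ r) X ip y * X y io - ∑ y : K₀ r, wfun (K₀ r) X iq y * X y io := by
      rw [← Finset.sum_neg_distrib, ← Finset.sum_sub_distrib]
      refine Finset.sum_congr rfl fun y _ => ?_
      have := ne y (fun e => io_notMem (e ▸ y.2))
      field_simp
      ring
    rw [e]
    ring
  have r1 : 0 < ((X ip io * X io ip) * (X io ip)⁻¹ + (X iq io * X io iq) * (X io iq)⁻¹
      + ∑ y : K₀ r, (X y io * X io y) * (-(wfun (K₀ r) X ip y + wfun (K₀ r) X iq y) / X io y)).re := by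
    rw [Complex.add_re, Complex.add_re, Complex.re_sum]
    have g1 := re_mul_pos (s0 ip hpo) f1
    have g2 := re_mul_pos (s0 iq hqo) f2
    have g3 : 0 ≤ ∑ y : K₀ r,
        ((X y io * X io y) * (-(wfun (K₀ r) X ip y + wfun (K₀ r) X iq y) / X io y)).re :=
      Finset.sum_nonneg fun y _ => (re_mul_pos (s0 y (fun e => io_notMem (e ▸ y.2))) (f3 y)).le
    linarith
  have r2 : ((sc X (K₀ r) ip io * sc X (K₀ r) io ip) * (sc X (K₀ r) io ip)⁻¹
        + (sc X (K₀ r) iq io * sc X (K₀ r) io iq) * (sc X (K₀ r) io iq)⁻¹).re < 0 := by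
    rw [Complex.add_re]
    exact add_neg (re_mul_neg sp f4) (re_mul_neg sq f5)
  rw [key] at r1
  linarith

end Pool.Agent.Helper21.GK
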