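import Mathlib
import Pool.Agent.Helper21.GK.Parts

/-!
The twin of the example: a limit of strict GKK matrices whose principal and almost principal minors
have the same signs.
-/

namespace Pool.Agent.Helper21.GK

open Matrix Finset Filter Topology Pool.Agent.Helper5.GKK Pool.Agent.Helper85.SVG
open scoped ComplexOrder ComplexConjugate

variable {r : ℕ}

/-- the symmetric twin is a limit of strict GKK matrices -/
theorem twin_mem_closure {t : ℝ} (h : Par r t (-1) (r + 1) (-(r - 1 / 2))) :
    cx (mat r t (-1) (r + 1) (-(r - 1 / 2)) 0 0 0 0) ∈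
      closure {B : Matrix (Fin (r + 4)) (Fin (r + 4)) ℂ | IsStrictGKK B} := by
  set A := mat r t (-1) (r + 1) (-(r - 1 / 2)) 0 0 0 0 with hA
  have h1 : cx A ∈ closure (hset (r + 4)) := by
    refine block_mem_closure (fun S => pm_cx_pos.mpr (pmr_zero_pos h S))
      (fun i => if i = io then 1 else 0) (w := fun _ => 1) (fun _ => one_pos) ?_ ?_
    · intro i j hij
      have hi : i ≠ io := by
        intro e
        simp only [e, if_true] at hij
        split_ifs at hij <;> omega
      have hj : j = io := by
        by_contra e
        simp only [if_neg hi, if_neg e] at hij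
        omega
      rw [hj, cx_apply, hA, mat_col _ _ _ _ _ _ _ _ i hi]
      simp
    · intro i j hij
      have hsymm : A i j = A j i := by
        by_cases hi : i = io
        · have hj : j = io := by
            by_contra e
            simp only [if_pos hi, if_neg e] at hij
            omega
          rw [hi, hj]
        · have hj : j ≠ io := by
            intro e
            simp only [if_neg hi, if_pos e] at hij
            omega
          by_cases hij' : i = j
          · rw [hij']
          · simp only [hA, mat, of_apply, if_neg hi, if_neg hj, if_neg hij', if_neg (Ne.symm hij')]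
            congr 1
            cases ty i <;> cases ty j <;> simp [hh]
      simp only [cx_apply, Complex.conj_ofReal, hsymm]
  exact closure_mono (fun X hX => hX.1) h1

/-- the signs of the Schur complements do not depend on the parameters -/
theorem sign_scr {t a c d a' c' d' : ℝ} (h : Par r t a c d) (h' : Par r t a' c' d')
    {K : Finset (Fin (r + 4))} {i j : Fin (r + 4)} (hij : i ≠ j) (hi : i ∉ K) (hj : j ∉ K) :
    SignType.sign (scr (mat r t a c d 0 0 0 0) K i j)
      = SignType.sign (scr (mat r t a' c' d' 0 0 0 0) K i j) := by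
  have pp' : ∀ {x y : ℝ}, 0 < x → 0 < y → SignType.sign x = SignType.sign y := by
    intro x y hx hy
    rw [sign_pos hx, sign_pos hy]
  have nn' : ∀ {x y : ℝ}, x < 0 → y < 0 → SignType.sign x = SignType.sign y := by
    intro x y hx hy
    rw [sign_neg hx, sign_neg hy]
  have hr : (1 : ℝ) ≤ r := by exact_mod_cast h.r1
  -- the case `o ∉ K`
  have main : ∀ {K : Finset (Fin (r + 4))}, io ∉ K → i ∉ K → j ∉ K →
      SignType.sign (scr (mat r t a c d 0 0 0 0) K i j)
        = SignType.sign (scr (mat r t a' c' d' 0 0 0 0) K i j) := by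
    intro K ho hi hj
    by_cases hjo : j = io
    · rw [hjo, sc_col_zero h ho i (hjo ▸ hij), sc_col_zero h' ho i (hjo ▸ hij)]
    by_cases hio : i = io
    · rw [hio]
      cases hty : ty j with
      | p =>
        have hjp := ty_eq_p.mp hty
        subst hjp
        have h1 := sign_of_est (e := 1 / 4) h.t0 (row_p h 0 0 0 0 ho hj) h.small (by norm_num)
        have h2 := sign_of_est (e := 1 / 4) h'.t0 (row_p h' 0 0 0 0 ho hj) h'.small (by norm_num)
        have key : 1 / 4 ≤ vp K ∨ vp K ≤ -(1 / 4) := by
          unfold vp
          have c0 : (0 : ℝ) ≤ cC K := Nat.cast_nonneg _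
          have c1 : (cC K : ℝ) ≤ r := by exact_mod_cast cC_le K
          by_cases hs : is ∈ K
          · right; rw [cS_eq_one hs]; push_cast; linarith
          · left; rw [cS_eq_zero hs]; push_cast; linarith
        rcases key with k | k
        · exact pp' (h1.1 k) (h2.1 k)
        · exact nn' (h1.2 k) (h2.2 k)
      | q =>
        have hjp := ty_eq_q.mp hty
        subst hjp
        have h1 := sign_of_est (e := 1 / 4) h.t0 (row_q h 0 0 0 0 ho hj) h.small (by norm_num)
        have h2 := sign_of_est (e := 1 / 4) h'.t0 (row_q h' 0 0 0 0 ho hj) h'.small (by norm_num)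
        have key : 1 / 4 ≤ vq K ∨ vq K ≤ -(1 / 4) := by
          unfold vq
          by_cases hs : is ∈ K
          · rw [cS_eq_one hs]
            rcases Nat.lt_or_ge (cC K) r with hlt | hge
            · left
              have h3 : cC K + 1 ≤ r := hlt
              have h4 : ((cC K + 1 : ℕ) : ℝ) ≤ r := by exact_mod_cast h3
              push_cast at h4 ⊢
              linarith
            · right
              have h3 : (r : ℝ) ≤ cC K := by exact_mod_cast hge
              push_cast
              linarith
          · rw [cS_eq_zero hs]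
            rcases Nat.eq_zero_or_pos (cC K) with h3 | h3
            · left; rw [h3]; push_cast; linarith
            · right
              have h4 : (1 : ℝ) ≤ cC K := by exact_mod_cast h3
              push_cast
              linarith
        rcases key with k | k
        · exact pp' (h1.1 k) (h2.1 k)
        · exact nn' (h1.2 k) (h2.2 k)
      | s => exact pp' (sign_row_heavy h 0 0 0 0 ho (Or.inl hty) hj) (sign_row_heavy h' 0 0 0 0 ho (Or.inl hty) hj)
      | c => exact pp' (sign_row_heavy h 0 0 0 0 ho (Or.inr hty) hj) (sign_row_heavy h' 0 0 0 0 ho (Or.inr hty) hj)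
      | o => exact absurd (ty_eq_o.mp hty) hjo
    · have h1 := sign_block h 0 0 0 0 ho hio hjo hij hi hj
      have h2 := sign_block h' 0 0 0 0 ho hio hjo hij hi hj
      have key : (0 < hh r a c d (ty i) (ty j) ∧ 0 < hh r a' c' d' (ty i) (ty j)) ∨
          (hh r a c d (ty i) (ty j) < 0 ∧ hh r a' c' d' (ty i) (ty j) < 0) := by
        obtain ⟨h1, h2⟩ := h.ha
        obtain ⟨h3, h4⟩ := h.hc
        obtain ⟨h5, h6⟩ := h.hd
        obtain ⟨h1', h2'⟩ := h'.ha
        obtain ⟨h3', h4'⟩ := h'.hc
        obtain ⟨h5', h6'⟩ := h'.hd
        cases ty i <;> cases ty j <;> simp only [hh] <;>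
          first | (left; constructor <;> linarith) | (right; constructor <;> linarith)
      rcases key with ⟨k1, k2⟩ | ⟨k1, k2⟩
      · exact pp' (h1.1 k1) (h2.1 k2)
      · exact nn' (h1.2 k1) (h2.2 k2)
  by_cases ho : io ∈ K
  · have hio : i ≠ io := fun e => hi (e ▸ ho)
    rw [← insert_erase ho, scr_insert_io h (notMem_erase io K) i j hio,
      scr_insert_io h' (notMem_erase io K) i j hio]
    exact main (notMem_erase io K) (fun e => hi (mem_of_mem_erase e)) (fun e => hj (mem_of_mem_erase e))
  · exact main ho hi hj

/-- a minor is `±` the corresponding `pp`, with a sign that only depends on the place -/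
theorem exists_sign {n k : ℕ} {K : Finset (Fin n)} {i j : Fin n} (hi : i ∉ K) (hj : j ∉ K)
    {α β : Fin k → Fin n} (hα : Function.Injective α) (hβ : Function.Injective β)
    (hαr : Set.range α = insert i (K : Set (Fin n))) (hβr : Set.range β = insert j (K : Set (Fin n))) :
    ∃ s : ℤˣ, ∀ M : Matrix (Fin n) (Fin n) ℝ, (M.submatrix α β).det = ((s : ℤ) : ℝ) * ppr M K i j := by
  have inj : ∀ i : Fin n, i ∉ K → Function.Injective (Sum.elim (Subtype.val : K → Fin n) (fun _ : Unit => i)) := by
    intro i hi
    rintro (x | x) (y | y) hxy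
    · exact congrArg _ (Subtype.val_injective hxy)
    · exact absurd (by rw [← show x.val = i from hxy]; exact x.2) hi
    · exact absurd (by rw [show i = y.val from hxy]; exact y.2) hi
    · rfl
  have rng : ∀ i : Fin n, Set.range (Sum.elim (Subtype.val : K → Fin n) (fun _ : Unit => i))
      = insert i (K : Set (Fin n)) := by
    intro i
    ext x
    simp only [Set.mem_range, Sum.exists, Sum.elim_inl, Sum.elim_inr, exists_const,
      Set.mem_insert_iff, Finset.mem_coe, Subtype.exists, exists_prop, exists_eq_right]
    constructor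
    · rintro (h | h)
      · exact Or.inr h
      · exact Or.inl h.symm
    · rintro (h | h)
      · exact Or.inr h.symm
      · exact Or.inl h
  obtain ⟨σ, hσ⟩ := exists_equiv α _ hα (inj i hi) (by rw [hαr, rng])
  obtain ⟨τ, hτ⟩ := exists_equiv β _ hβ (inj j hj) (by rw [hβr, rng])
  refine ⟨Equiv.Perm.sign (σ.symm.trans τ), fun M => ?_⟩
  have h1 : ((M.submatrix α β).det : ℂ) = (((Equiv.Perm.sign (σ.symm.trans τ) : ℤˣ) : ℤ) : ℂ) * (ppr M K i j : ℂ) := by
    rw [← det_cx, ← pp_cx]
    conv_lhs => rw [hσ, hτ, ← submatrix_submatrix, det_submatrix_two]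
    rfl
  exact_mod_cast h1

/-- principal and almost principal minors have the same signs -/
theorem sign_minor {t a c d a' c' d' : ℝ} (h : Par r t a c d) (h' : Par r t a' c' d') {k : ℕ}
    {α β : Fin k → Fin (r + 4)} (hαβ : (α = β ∧ StrictMono α) ∨ AlmostPrincipal α β) :
    SignType.sign (((mat r t a c d 0 0 0 0).submatrix α β).det)
      = SignType.sign (((mat r t a' c' d' 0 0 0 0).submatrix α β).det) := by
  rcases hαβ with ⟨rfl, hm⟩ | hαβ
  · have key : ∀ {a c d : ℝ}, Par r t a c d → 0 < ((mat r t a c d 0 0 0 0).submatrix α α).det := by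
      intro a c d h
      have h1 := pm_cx_pos.mpr (pmr_zero_pos h (univ.image α))
      rw [← minor_eq_pm _ _ hm, minor, det_cx, Complex.zero_lt_real] at h1
      exact h1
    rw [sign_pos (key h), sign_pos (key h')]
  · obtain ⟨K, i, j, hi, hj, hij, hα, hβ⟩ := hαβ.exists
    obtain ⟨s, hs⟩ := exists_sign hi hj hαβ.1.injective hαβ.2.1.injective hα hβ
    rw [hs, hs, ppr_eq (pmr_zero_pos h K).ne', ppr_eq (pmr_zero_pos h' K).ne', sign_mul, sign_mul,
      sign_mul, sign_mul, sign_pos (pmr_zero_pos h K), sign_pos (pmr_zero_pos h' K),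
      sign_scr h h' hij hi hj]

end Pool.Agent.Helper21.GK
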