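import Mathlib
import Pool.Agent.Helper21.GK.Twin
import Pool.Agent.Helper21.GK.NotMem
import Pool.Agent.Helper5.GKK.Small3
import Pool.Agent.Helper5.GKK.Twins

/-!
Integer matrices, and the final statement.
-/

namespace Pool.Agent.Helper21.GK

open Matrix Finset Filter Topology Pool.Agent.Helper5.GKK Pool.Agent.Helper85.SVG
open scoped ComplexOrder ComplexConjugate

/-! ### scaling -/

section scale

variable {n : ℕ}

theorem pm_smul (c : ℂ) (A : Matrix (Fin n) (Fin n) ℂ) (S : Finset (Fin n)) :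
    pm (c • A) S = c ^ S.card * pm A S := by
  have h : (c • A).submatrix (Subtype.val : S → Fin n) (Subtype.val : S → Fin n)
      = c • A.submatrix (Subtype.val : S → Fin n) (Subtype.val : S → Fin n) := by
    ext i j; rfl
  rw [pm, h, det_smul, Fintype.card_coe, pm]

theorem ap_smul (c : ℂ) (A : Matrix (Fin n) (Fin n) ℂ) {K : Finset (Fin n)} {i j : Fin n} (hi : i ∉ K)
    (hj : j ∉ K) (hij : i ≠ j) : ap (c • A) K i j = c ^ (2 * K.card + 2) * ap A K i j := by
  have hj' : i ∉ insert j K := by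
    rw [mem_insert]; rintro (h | h)
    · exact hij h
    · exact hi h
  rw [ap, ap, pm_smul, pm_smul, pm_smul, pm_smul, card_insert_of_notMem hi, card_insert_of_notMem hj,
    card_insert_of_notMem hj', card_insert_of_notMem hj]
  ring

theorem pow_pos_c {c : ℂ} (hc : 0 < c) (m : ℕ) : 0 < c ^ m := by
  induction m with
  | zero => rw [pow_zero]; exact zero_lt_one
  | succ m ih => rw [pow_succ]; exact mul_pos ih hc

theorem isGKK_smul {c : ℂ} (hc : 0 < c) {A : Matrix (Fin n) (Fin n) ℂ} (hA : IsGKK A) :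
    IsGKK (c • A) := by
  rw [isGKK_iff] at hA ⊢
  refine ⟨fun S => ?_, fun K i j hi hj hij => ?_⟩
  · rw [pm_smul]; exact mul_pos (pow_pos_c hc _) (hA.1 S)
  · rw [ap_smul c A hi hj hij]; exact mul_nonneg (pow_pos_c hc _).le (hA.2 K i j hi hj hij)

theorem isStrictGKK_smul {c : ℂ} (hc : 0 < c) {A : Matrix (Fin n) (Fin n) ℂ} (hA : IsStrictGKK A) :
    IsStrictGKK (c • A) := by
  rw [isStrictGKK_iff] at hA ⊢
  refine ⟨fun S => ?_, fun K i j hi hj hij => ?_⟩
  · rw [pm_smul]; exact mul_pos (pow_pos_c hc _) (hA.1 S)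
  · rw [ap_smul c A hi hj hij]; exact mul_pos (pow_pos_c hc _) (hA.2 K i j hi hj hij)

theorem closure_smul {c : ℂ} (hc : 0 < c) {A : Matrix (Fin n) (Fin n) ℂ}
    (hA : A ∈ closure {B : Matrix (Fin n) (Fin n) ℂ | IsStrictGKK B}) :
    c • A ∈ closure {B : Matrix (Fin n) (Fin n) ℂ | IsStrictGKK B} :=
  map_mem_closure (f := fun B : Matrix (Fin n) (Fin n) ℂ => c • B) (continuous_const_smul c) hA
    fun _ hB => isStrictGKK_smul hc hB

theorem schurPart_smul {c : ℂ} (hc : c ≠ 0) (A : Matrix (Fin n) (Fin n) ℂ) {K : Finset (Fin n)}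
    (hK : pm A K ≠ 0) {m : ℕ} (e : Fin m → Fin n) : schurPart (c • A) K e = c • schurPart A K e := by
  have hK' : pm (c • A) K ≠ 0 := by rw [pm_smul]; exact mul_ne_zero (pow_ne_zero _ hc) hK
  ext i j
  rw [Matrix.smul_apply, schurPart_apply, schurPart_apply, smul_eq_mul]
  have h1 := pp_eq_sc (c • A) K hK' (e i) (e j)
  have h2 := pp_eq_sc A K hK (e i) (e j)
  have h3 : pp (c • A) K (e i) (e j) = c ^ (K.card + 1) * pp A K (e i) (e j) := by
    have h : (c • A).submatrix (Sum.elim (Subtype.val : K → Fin n) (fun _ : Unit => e i))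
        (Sum.elim (Subtype.val : K → Fin n) (fun _ : Unit => e j))
        = c • A.submatrix (Sum.elim (Subtype.val : K → Fin n) (fun _ : Unit => e i))
        (Sum.elim (Subtype.val : K → Fin n) (fun _ : Unit => e j)) := by
      ext i j; rfl
    rw [pp, h, det_smul, Fintype.card_sum, Fintype.card_coe, Fintype.card_unit, pp]
  rw [h3, h2, pm_smul] at h1
  have h4 : c ^ K.card * pm A K ≠ 0 := mul_ne_zero (pow_ne_zero _ hc) hK
  refine mul_left_cancel₀ h4 ?_
  rw [← h1]
  ring

/-- parts of GKK matrices are GKK -/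
theorem isGKK_schurPart {A : Matrix (Fin n) (Fin n) ℂ} (hA : IsGKK A) {K : Finset (Fin n)}
    {m : ℕ} {e : Fin m → Fin n} (he : Function.Injective e) (heK : ∀ i, e i ∉ K) :
    IsGKK (schurPart A K e) := by
  rw [isGKK_iff] at hA ⊢
  have hK := hA.1 K
  have hnot : ∀ (S : Finset (Fin m)) (i : Fin m), i ∉ S → e i ∉ K ∪ S.image e := by
    intro S i hi hh
    rw [mem_union, mem_image] at hh
    rcases hh with hh | ⟨i', hi', hh⟩
    · exact heK i hh
    · exact hi ((he hh) ▸ hi')
  refine ⟨fun S => ?_, fun S i j hi hj hij => ?_⟩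
  · have h1 := hA.1 (K ∪ S.image e)
    rw [pm_schurPart A hK.ne' he heK] at h1
    exact pos_of_pos_mul hK h1
  · have h1 := hA.2 (K ∪ S.image e) (e i) (e j) (hnot S i hi) (hnot S j hj) (fun hh => hij (he hh))
    rw [ap_schurPart A hK.ne' he heK] at h1
    have h2 := pow_pos_c hK 2
    obtain ⟨g1, g2⟩ := Complex.pos_iff.mp h2
    rw [Complex.nonneg_iff] at h1 ⊢
    obtain ⟨g3, g4⟩ := h1
    rw [Complex.mul_re, ← g2, zero_mul, sub_zero] at g3
    rw [Complex.mul_im, ← g2, zero_mul, add_zero] at g4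
    refine ⟨(mul_nonneg_iff_of_pos_left g1).mp g3, ?_⟩
    rcases mul_eq_zero.mp g4.symm with h | h
    · exact absurd h g1.ne'
    · exact h.symm

/-- the limits are closed under taking parts -/
theorem schurPart_mem_closure {A : Matrix (Fin n) (Fin n) ℂ} {K : Finset (Fin n)} (hK : pm A K ≠ 0)
    (hA : A ∈ closure {B : Matrix (Fin n) (Fin n) ℂ | IsStrictGKK B})
    {m : ℕ} {e : Fin m → Fin n} (he : Function.Injective e) (heK : ∀ i, e i ∉ K) :
    schurPart A K e ∈ closure {B : Matrix (Fin m) (Fin m) ℂ | IsStrictGKK B} := by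
  have hnot : ∀ (S : Finset (Fin m)) (i : Fin m), i ∉ S → e i ∉ K ∪ S.image e := by
    intro S i hi hh
    rw [mem_union, mem_image] at hh
    rcases hh with hh | ⟨i', hi', hh⟩
    · exact heK i hh
    · exact hi ((he hh) ▸ hi')
  have hc : ContinuousWithinAt (fun M : Matrix (Fin n) (Fin n) ℂ => schurPart M K e)
      {B : Matrix (Fin n) (Fin n) ℂ | IsStrictGKK B} A := (continuousAt_schurPart hK e).continuousWithinAt
  have h1 := hc.mem_closure_image hA
  refine closure_mono ?_ h1
  rintro _ ⟨B, hB, rfl⟩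
  have hB' := (isStrictGKK_iff B).mp hB
  refine isStrictGKK_schurPart hB'.1 he heK fun S i j hi hj hij => ?_
  exact hB'.2 _ _ _ (hnot S i hi) (hnot S j hj) (fun hh => hij (he hh))

end scale

/-! ### integer matrices -/

/-- the off-diagonal entries of the integer matrices outside the last row and column -/
def hz (r a c d : ℤ) : T → T → ℤ
  | .c, .p => -4
  | .p, .c => a
  | .s, .p => 4 * r + 4
  | .s, .q => -(4 * r - 2)
  | .p, .s => c
  | .q, .s => d
  | _, _ => 4

/-- the common diagonal entry of the integer matrices -/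
def dz (r : ℕ) : ℤ := 10240 * ((r : ℤ) + 4) ^ 2 * ((r : ℤ) + 1) ^ 3

/-- the integer matrices -/
def matz (r : ℕ) (a c d : ℤ) : Matrix (Fin (r + 4)) (Fin (r + 4)) ℤ :=
  Matrix.of fun i j => if i = j then dz r else if j = io then 0 else if i = io then
    (match ty j with
      | .p => 2
      | .q => 1
      | _ => dz r)
    else hz r a c d (ty i) (ty j)

/-- the small parameter -/
noncomputable def tz (r : ℕ) : ℝ := 4 / (dz r : ℝ)

variable {r : ℕ}

theorem dz_pos : (0 : ℝ) < (dz r : ℝ) := by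
  unfold dz
  push_cast
  positivity

theorem matz_eq (a c d : ℤ) : (matz r a c d).map ((↑) : ℤ → ℂ)
    = ((dz r : ℝ) : ℂ) • cx (mat r (tz r) (a / 4) (c / 4) (d / 4) 0 0 0 0) := by
  have hd := (dz_pos (r := r)).ne'
  ext i j
  rw [Matrix.smul_apply, map_apply, cx_apply, smul_eq_mul, ← Complex.ofReal_mul, ← Complex.ofReal_intCast]
  congr 1
  simp only [matz, mat, of_apply]
  by_cases hij : i = j
  · rw [if_pos hij, if_pos hij, mul_one]
  · rw [if_neg hij, if_neg hij]
    by_cases hj : j = io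
    · have hi : i ≠ io := fun e => hij (e.trans hj.symm)
      rw [if_pos hj, if_neg hi, if_pos hj]
      simp
    · rw [if_neg hj]
      by_cases hi : i = io
      · rw [if_pos hi, if_pos hi]
        unfold tz
        cases hty : ty j with
        | p => simp only [xi, al]; field_simp; norm_num
        | q => simp only [xi, al]; field_simp; norm_num
        | s => simp only [xi, al]; ring
        | c => simp only [xi, al]; ring
        | o => exact absurd (ty_eq_o.mp hty) hj
      · rw [if_neg hi, if_neg hi, if_neg hj]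
        unfold tz
        cases ty i <;> cases ty j <;> simp only [hz, hh] <;> push_cast <;> field_simp <;> ring

theorem par (hr : 1 ≤ r) {a c d : ℝ} (ha : -2 ≤ a ∧ a ≤ -1) (hc : 1 ≤ c ∧ c ≤ r + 1)
    (hd : -(r + 1) ≤ d ∧ d ≤ -1 / 2) : Par r (tz r) a c d where
  r1 := hr
  t0 := by unfold tz; have := dz_pos (r := r); positivity
  small := by
    have hd := (dz_pos (r := r)).ne'
    have e : 5 * ((r + 4 : ℕ) : ℝ) ^ 2 * (4 * ((r : ℝ) + 1)) ^ 3 * tz r = 1 / 8 := by
      unfold tz
      rw [eq_div_iff (by norm_num : (8 : ℝ) ≠ 0)]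
      field_simp
      unfold dz
      push_cast
      ring
    exact e.le
  ha := ha
  hc := hc
  hd := hd

theorem sign_matz {a c d a' c' d' : ℤ} (h : Par r (tz r) (a / 4) (c / 4) (d / 4))
    (h' : Par r (tz r) (a' / 4) (c' / 4) (d' / 4)) {k : ℕ} {α β : Fin k → Fin (r + 4)}
    (hαβ : (α = β ∧ StrictMono α) ∨ AlmostPrincipal α β) :
    SignType.sign (((matz r a c d).submatrix α β).det) = SignType.sign (((matz r a' c' d').submatrix α β).det) := by
  have key : ∀ a c d : ℤ, SignType.sign (((matz r a c d).submatrix α β).det)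
      = SignType.sign (((mat r (tz r) (a / 4) (c / 4) (d / 4) 0 0 0 0).submatrix α β).det) := by
    intro a c d
    have e1 : ((((matz r a c d).submatrix α β).det : ℤ) : ℂ)
        = (((matz r a c d).map ((↑) : ℤ → ℂ)).submatrix α β).det := by
      have := RingHom.map_det (Int.castRingHom ℂ) ((matz r a c d).submatrix α β)
      rw [eq_intCast] at this
      exact this
    have e2 : (((matz r a c d).map ((↑) : ℤ → ℂ)).submatrix α β).det
        = (((dz r : ℝ) ^ k * ((mat r (tz r) (a / 4) (c / 4) (d / 4) 0 0 0 0).submatrix α β).det : ℝ) : ℂ) := by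
      rw [matz_eq]
      have : ((((dz r : ℝ) : ℂ) • cx (mat r (tz r) (a / 4) (c / 4) (d / 4) 0 0 0 0)).submatrix α β)
          = ((dz r : ℝ) : ℂ) • (cx (mat r (tz r) (a / 4) (c / 4) (d / 4) 0 0 0 0)).submatrix α β := by
        ext i j; rfl
      rw [this, det_smul, Fintype.card_fin, det_cx]
      push_cast
      rfl
    have e3 : ((((matz r a c d).submatrix α β).det : ℤ) : ℝ)
        = (dz r : ℝ) ^ k * ((mat r (tz r) (a / 4) (c / 4) (d / 4) 0 0 0 0).submatrix α β).det := by
      have := e1.trans e2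
      refine Complex.ofReal_injective ?_
      rw [← this, Complex.ofReal_intCast]
    have e4 : SignType.sign (((matz r a c d).submatrix α β).det)
        = SignType.sign ((((matz r a c d).submatrix α β).det : ℤ) : ℝ) := by
      rw [sign_intCast]
    rw [e4, e3, sign_mul, sign_pos (pow_pos dz_pos k), one_mul]
  rw [key a c d, key a' c' d']
  exact sign_minor h h' hαβ

/-- the final statement -/
theorem excluded :
    (∀ (n : ℕ) (A : Matrix (Fin n) (Fin n) ℂ), IsGKK A →
      ∀ (K : Finset (Fin n)) (m : ℕ) (e : Fin m → Fin n), Function.Injective e → (∀ i, e i ∉ K) →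
        IsGKK (schurPart A K e) ∧ (A ∈ closure {B : Matrix (Fin n) (Fin n) ℂ | IsStrictGKK B} →
          schurPart A K e ∈ closure {B : Matrix (Fin m) (Fin m) ℂ | IsStrictGKK B})) ∧
    (∀ n : ℕ, n ≤ 3 → ∀ A : Matrix (Fin n) (Fin n) ℂ, IsGKK A →
      A ∈ closure {B : Matrix (Fin n) (Fin n) ℂ | IsStrictGKK B}) ∧
    (∀ n : ℕ, 4 ≤ n → ∃ A A' : Matrix (Fin n) (Fin n) ℤ,
      IsGKK (A.map ((↑) : ℤ → ℂ)) ∧ IsGKK (A'.map ((↑) : ℤ → ℂ)) ∧
      (∀ (K : Finset (Fin n)) (m : ℕ) (e : Fin m → Fin n), m < n → Function.Injective e →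
        (∀ i, e i ∉ K) → schurPart (A.map ((↑) : ℤ → ℂ)) K e
          ∈ closure {B : Matrix (Fin m) (Fin m) ℂ | IsStrictGKK B}) ∧
      (∀ (k : ℕ) (α β : Fin k → Fin n), (α = β ∧ StrictMono α) ∨ AlmostPrincipal α β →
        SignType.sign ((A.submatrix α β).det) = SignType.sign ((A'.submatrix α β).det)) ∧
      A.map ((↑) : ℤ → ℂ) ∉ closure {B : Matrix (Fin n) (Fin n) ℂ | IsStrictGKK B} ∧
      A'.map ((↑) : ℤ → ℂ) ∈ closure {B : Matrix (Fin n) (Fin n) ℂ | IsStrictGKK B}) := by
  refine ⟨fun n A hA K m e he heK => ⟨isGKK_schurPart hA he heK, fun hA' =>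
    schurPart_mem_closure (((isGKK_iff A).mp hA).1 K).ne' hA' he heK⟩,
    fun n hn A hA => small_order hn A hA, fun n hn => ?_⟩
  rcases Nat.eq_or_lt_of_le hn with rfl | hn5
  · obtain ⟨A, A', hA, hA', hs, h1, h2⟩ := twins (n := 4) le_rfl
    refine ⟨A', A, hA', hA, fun K m e hm he heK => ?_, fun k α β hαβ => ?_, h2, h1⟩
    · exact small_order (by omega) _ (isGKK_schurPart hA' he heK)
    · rcases hαβ with ⟨rfl, hm⟩ | hαβ
      · exact (hs k α α hm hm).symm
      · exact (hs k α β hαβ.1 hαβ.2.1).symm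
  · obtain ⟨r, rfl⟩ : ∃ r, n = r + 4 := ⟨n - 4, by omega⟩
    have hr : 1 ≤ r := by omega
    have hr' : (1 : ℝ) ≤ r := by exact_mod_cast hr
    have h : Par r (tz r) (((-8 : ℤ) : ℝ) / 4) (((4 : ℤ) : ℝ) / 4) (((-8 : ℤ) : ℝ) / 4) := by
      refine par hr ?_ ?_ ?_ <;> push_cast <;> constructor <;> linarith
    have h' : Par r (tz r) (((-4 : ℤ) : ℝ) / 4) (((4 * r + 4 : ℤ) : ℝ) / 4)
        (((-(4 * r - 2) : ℤ) : ℝ) / 4) := by
      refine par hr ?_ ?_ ?_ <;> push_cast <;> constructor <;> linarith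
    have e1 : (((-8 : ℤ) : ℝ) / 4) = -2 := by push_cast; norm_num
    have e2 : (((4 : ℤ) : ℝ) / 4) = 1 := by push_cast; norm_num
    have e3 : (((-4 : ℤ) : ℝ) / 4) = -1 := by push_cast; norm_num
    have e4 : (((4 * r + 4 : ℤ) : ℝ) / 4) = r + 1 := by push_cast; ring
    have e5 : (((-(4 * r - 2) : ℤ) : ℝ) / 4) = -(r - 1 / 2) := by push_cast; ring
    have hc : (0 : ℂ) < ((dz r : ℝ) : ℂ) := by exact_mod_cast dz_pos (r := r)
    refine ⟨matz r (-8) 4 (-8), matz r (-4) (4 * r + 4) (-(4 * r - 2)), ?_, ?_, ?_, ?_, ?_, ?_⟩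
    · rw [matz_eq]; exact isGKK_smul hc (isGKK_mat h)
    · rw [matz_eq]; exact isGKK_smul hc (isGKK_mat h')
    · intro K m e hm he heK
      rw [matz_eq, schurPart_smul hc.ne' _ (pm_cx_pos.mpr (pmr_zero_pos h K)).ne']
      refine closure_smul hc ?_
      rw [e1, e2] at h ⊢
      exact part_mem_closure h K hm e he heK
    · intro k α β hαβ
      exact sign_matz h h' hαβ
    · rw [matz_eq]
      intro hh
      have hc' : (0 : ℂ) < (((dz r : ℝ)⁻¹ : ℝ) : ℂ) := by
        rw [Complex.zero_lt_real]; exact inv_pos.mpr dz_pos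
      have h1 := closure_smul hc' hh
      rw [smul_smul, ← Complex.ofReal_mul, inv_mul_cancel₀ dz_pos.ne', Complex.ofReal_one, one_smul] at h1
      rw [e1, e2] at h1 h
      exact not_mem h h1
    · rw [matz_eq]
      refine closure_smul hc ?_
      rw [e3, e4, e5] at h' ⊢
      exact twin_mem_closure h'

end Pool.Agent.Helper21.GK
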